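import Pool.Agent.Helper51.W2.Psi

/-!
# The graph with two flexible links: density
-/

set_option autoImplicit false

namespace Pool.Agent.Helper51.W2

open SimpleGraph Pool.Agent.Helper57.TOK Pool.Agent.Helper57.TD Pool.Agent.Helper57.TOP
  Pool.Agent.Helper82.TK Pool.Agent.Helper51.GX Pool.Agent.Helper75.SEP Pool.Agent.Helper1.SEP
  Pool.Agent.Helper1.PHI

variable {V : Type*}

/-- One insertion step. -/
lemma fden_step [Finite V] (H : SimpleGraph V) {y : V} {Y : Set V} (hy : y ∉ Y) (F : Finset V)
    (hF : ∀ x ∈ F, x ∉ Y) : fden H Y + ∑ x ∈ F, rr H y x - 2 ≤ fden H (insert y Y) := by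
  classical
  rw [fden_insert H hy]
  have h1 : ∑ x ∈ F, rr H y x = ((F.filter (fun x => H.Adj y x)).card : ℤ) := by
    rw [Finset.card_filter]
    push_cast
    refine Finset.sum_congr rfl ?_
    intro x _
    unfold rr
    rfl
  have h2 : ((F.filter (fun x => H.Adj y x) : Finset V) : Set V) ⊆ H.neighborSet y \ Y := by
    intro x hx
    rw [Finset.mem_coe, Finset.mem_filter] at hx
    exact ⟨hx.2, hF x hx.1⟩
  have h3 := Set.ncard_le_ncard h2 (Set.toFinite _)
  rw [Set.ncard_coe_finset] at h3
  have h4 : ((F.filter (fun x => H.Adj y x)).card : ℤ) ≤ ((H.neighborSet y \ Y).ncard : ℤ) := by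
    exact_mod_cast h3
  linarith

lemma rr_one {H : SimpleGraph V} {x y : V} (h : H.Adj x y) : rr H x y = 1 := by
  unfold rr; rw [if_pos h]

lemma rr_nonneg (H : SimpleGraph V) (x y : V) : 0 ≤ rr H x y := by
  unfold rr; split_ifs <;> norm_num

lemma rr_le {G H : SimpleGraph V} {x y : V} (h : G.Adj x y → H.Adj x y) : rr G x y ≤ rr H x y := by
  unfold rr
  by_cases h1 : G.Adj x y
  · rw [if_pos h1, if_pos (h h1)]
  · rw [if_neg h1]; split_ifs <;> norm_num

variable {G : SimpleGraph V} {U A B X0 Q : Set V} {i j k s t m : V}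

namespace PS

lemma fdenQ (h : PS G U A B X0 Q i j k s t m) :
    fden (psiG G Q i j s t m k) Q = fden G Q := by
  unfold fden rho
  have : EAt (psiG G Q i j s t m k) Q = EAt G Q := by
    ext e
    induction e using Sym2.ind with
    | _ u v =>
      rw [mem_EAt, mem_EAt]
      constructor
      · rintro ⟨h1, h2 | h2⟩
        · exact ⟨(h.adjQ h2).1 h1, Or.inl h2⟩
        · exact ⟨((h.adjQ h2).1 h1.symm).symm, Or.inr h2⟩
      · rintro ⟨h1, h2 | h2⟩
        · exact ⟨(h.adjQ h2).2 h1, Or.inl h2⟩
        · exact ⟨((h.adjQ h2).2 h1.symm).symm, Or.inr h2⟩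
  rw [this]

lemma dens_of_fden [Finite V] {H : SimpleGraph V} {W : Set V} (h : -2 ≤ fden H W) :
    2 * W.ncard ≤ H.edgeSet.ncard + 2 := by
  unfold fden at h
  have h1 : rho H W ≤ H.edgeSet.ncard := Set.ncard_le_ncard (fun e he => he.1) (Set.toFinite _)
  omega

/-- first two steps -/
lemma base [Finite V] (h : PS G U A B X0 Q i j k s t m) :
    fden G Q ≤ fden (psiG G Q i j s t m k) (insert m (insert k Q)) := by
  classical
  have h1 := fden_step (psiG G Q i j s t m k) (y := k) (Y := Q) (fun hh => h.Qk hh rfl) {s, t} (by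
    intro x hx hxQ
    simp only [Finset.mem_insert, Finset.mem_singleton] at hx
    rcases hx with rfl | rfl
    · exact h.Qs hxQ rfl
    · exact h.Qt hxQ rfl)
  rw [Finset.sum_pair h.vio.st, rr_one h.aks, rr_one h.akt, h.fdenQ] at h1
  have h2 := fden_step (psiG G Q i j s t m k) (y := m) (Y := insert k Q) (by
    rintro (hh | hh)
    · exact h.mk' hh
    · exact h.Qm hh rfl) {i, j} (by
    intro x hx hxQ
    simp only [Finset.mem_insert, Finset.mem_singleton] at hx
    rcases hxQ with hxk | hxQ
    · rcases hx with hx | hx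
      · exact h.s3.ik (hx.symm.trans hxk)
      · exact h.s3.jk (hx.symm.trans hxk)
    · rcases hx with hx | hx
      · exact h.Qi hxQ hx
      · exact h.Qj hxQ hx)
  rw [Finset.sum_pair h.s3.ij, rr_one h.ami, rr_one h.amj] at h2
  linarith

/-- Density, not shared. -/
lemma dens1 [Finite V] (h : PS G U A B X0 Q i j k s t m) (hsi : s ≠ i) (hsj : s ≠ j)
    (hti : t ≠ i) (htj : t ≠ j)
    (hnum : 4 ≤ fden G Q + rr G i s + rr G i t + rr G j s + rr G j t) :
    2 * (psiU Q i j s t m k).ncard ≤ (psiG G Q i j s t m k).edgeSet.ncard + 2 := by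
  classical
  refine dens_of_fden ?_
  set H := psiG G Q i j s t m k with hH
  have h0 := h.base
  rw [← hH] at h0
  have memW : ∀ x, x = i ∨ x = j ∨ x = s ∨ x = t → x ∈ Q ∪ {i, j, s, t} := by
    intro x hx; exact Or.inr hx
  have hG : ∀ x y, (x = i ∨ x = j ∨ x = s ∨ x = t) → (y = i ∨ y = j ∨ y = s ∨ y = t) →
      rr G x y ≤ rr H x y := fun x y hx hy => rr_le (fun hxy => of_G hxy (memW x hx) (memW y hy))
  have h1 := fden_step H (y := s) (Y := insert m (insert k Q)) (by
    rintro (hh | hh | hh)
    · exact h.ms hh.symm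
    · exact h.sk hh
    · exact h.Qs hh rfl) {t, i, j} (by
    intro x hx hxQ
    simp only [Finset.mem_insert, Finset.mem_singleton] at hx
    rcases hxQ with hxm | hxk | hxQ
    · rcases hx with hx | hx | hx
      · exact h.mt (hxm.symm.trans hx)
      · exact h.mi (hxm.symm.trans hx)
      · exact h.mj (hxm.symm.trans hx)
    · rcases hx with hx | hx | hx
      · exact h.tk (hx.symm.trans hxk)
      · exact h.s3.ik (hx.symm.trans hxk)
      · exact h.s3.jk (hx.symm.trans hxk)
    · rcases hx with hx | hx | hx
      · exact h.Qt hxQ hx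
      · exact h.Qi hxQ hx
      · exact h.Qj hxQ hx)
  rw [Finset.sum_insert (by
    simp only [Finset.mem_insert, Finset.mem_singleton, not_or]; exact ⟨hti, htj⟩),
    Finset.sum_pair h.s3.ij, rr_one h.ast] at h1
  have h2 := fden_step H (y := t) (Y := insert s (insert m (insert k Q))) (by
    rintro (hh | hh | hh | hh)
    · exact h.vio.st hh.symm
    · exact h.mt hh.symm
    · exact h.tk hh
    · exact h.Qt hh rfl) {i, j} (by
    intro x hx hxQ
    simp only [Finset.mem_insert, Finset.mem_singleton] at hx
    rcases hxQ with hxs | hxm | hxk | hxQ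
    · rcases hx with hx | hx
      · exact hsi (hxs.symm.trans hx)
      · exact hsj (hxs.symm.trans hx)
    · rcases hx with hx | hx
      · exact h.mi (hxm.symm.trans hx)
      · exact h.mj (hxm.symm.trans hx)
    · rcases hx with hx | hx
      · exact h.s3.ik (hx.symm.trans hxk)
      · exact h.s3.jk (hx.symm.trans hxk)
    · rcases hx with hx | hx
      · exact h.Qi hxQ hx
      · exact h.Qj hxQ hx)
  rw [Finset.sum_pair h.s3.ij] at h2
  have h3 := fden_step H (y := i) (Y := insert t (insert s (insert m (insert k Q)))) (by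
    rintro (hh | hh | hh | hh | hh)
    · exact hti hh.symm
    · exact hsi hh.symm
    · exact h.mi hh.symm
    · exact h.s3.ik hh
    · exact h.Qi hh rfl) {j} (by
    intro x hx hxQ
    simp only [Finset.mem_singleton] at hx
    subst hx
    rcases hxQ with hh | hh | hh | hh | hh
    · exact htj hh.symm
    · exact hsj hh.symm
    · exact h.mj hh.symm
    · exact h.s3.jk hh
    · exact h.Qj hh rfl)
  rw [Finset.sum_singleton, rr_one h.ij] at h3
  have h4 := fden_step H (y := j) (Y := insert i (insert t (insert s (insert m (insert k Q))))) (by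
    rintro (hh | hh | hh | hh | hh | hh)
    · exact h.s3.ij hh.symm
    · exact htj hh.symm
    · exact hsj hh.symm
    · exact h.mj hh.symm
    · exact h.s3.jk hh
    · exact h.Qj hh rfl) ∅ (by
    intro x hx
    simp at hx)
  rw [Finset.sum_empty] at h4
  have hU : insert j (insert i (insert t (insert s (insert m (insert k Q))))) =
      psiU Q i j s t m k := by
    ext x
    rw [memU]
    simp only [Set.mem_insert_iff]
    tauto
  rw [hU] at h4
  have e1 := hG s i (by tauto) (by tauto)
  have e2 := hG s j (by tauto) (by tauto)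
  have e3 := hG t i (by tauto) (by tauto)
  have e4 := hG t j (by tauto) (by tauto)
  rw [rr_comm G s i] at e1
  rw [rr_comm G s j] at e2
  rw [rr_comm G t i] at e3
  rw [rr_comm G t j] at e4
  linarith

/-- Density, shared. -/
lemma dens2 [Finite V] (h : PS G U A B X0 Q i j k s t m) (hsi : s = i)
    (hti : t ≠ i) (htj : t ≠ j) (hnum : 2 ≤ fden G Q + rr G j t) :
    2 * (psiU Q i j s t m k).ncard ≤ (psiG G Q i j s t m k).edgeSet.ncard + 2 := by
  classical
  refine dens_of_fden ?_
  set H := psiG G Q i j s t m k with hH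
  have h0 := h.base
  rw [← hH] at h0
  have h1 := fden_step H (y := t) (Y := insert m (insert k Q)) (by
    rintro (hh | hh | hh)
    · exact h.mt hh.symm
    · exact h.tk hh
    · exact h.Qt hh rfl) {i, j} (by
    intro x hx hxQ
    simp only [Finset.mem_insert, Finset.mem_singleton] at hx
    rcases hxQ with hxm | hxk | hxQ
    · rcases hx with hx | hx
      · exact h.mi (hxm.symm.trans hx)
      · exact h.mj (hxm.symm.trans hx)
    · rcases hx with hx | hx
      · exact h.s3.ik (hx.symm.trans hxk)
      · exact h.s3.jk (hx.symm.trans hxk)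
    · rcases hx with hx | hx
      · exact h.Qi hxQ hx
      · exact h.Qj hxQ hx)
  have hti' : H.Adj t i := by
    have := h.ast.symm
    rw [hsi] at this
    rw [hH, hsi]
    exact this
  rw [Finset.sum_pair h.s3.ij, rr_one hti'] at h1
  have h3 := fden_step H (y := i) (Y := insert t (insert m (insert k Q))) (by
    rintro (hh | hh | hh | hh)
    · exact hti hh.symm
    · exact h.mi hh.symm
    · exact h.s3.ik hh
    · exact h.Qi hh rfl) {j} (by
    intro x hx hxQ
    simp only [Finset.mem_singleton] at hx
    subst hx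
    rcases hxQ with hh | hh | hh | hh
    · exact htj hh.symm
    · exact h.mj hh.symm
    · exact h.s3.jk hh
    · exact h.Qj hh rfl)
  rw [Finset.sum_singleton, rr_one h.ij] at h3
  have h4 := fden_step H (y := j) (Y := insert i (insert t (insert m (insert k Q)))) (by
    rintro (hh | hh | hh | hh | hh)
    · exact h.s3.ij hh.symm
    · exact htj hh.symm
    · exact h.mj hh.symm
    · exact h.s3.jk hh
    · exact h.Qj hh rfl) ∅ (by
    intro x hx
    simp at hx)
  rw [Finset.sum_empty] at h4
  have hU : insert j (insert i (insert t (insert m (insert k Q)))) =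
      psiU Q i j s t m k := by
    ext x
    rw [memU]
    simp only [Set.mem_insert_iff]
    constructor
    · tauto
    · rintro (h5 | h5 | h5 | h5 | h5 | h5 | h5)
      · tauto
      · tauto
      · tauto
      · exact Or.inr (Or.inl (h5.trans hsi))
      · tauto
      · tauto
      · tauto
  rw [hU] at h4
  have e1 : rr G t j ≤ rr H t j := rr_le (fun hxy => of_G hxy
    (Or.inr (Or.inr (Or.inr (Or.inr rfl)))) (Or.inr (Or.inr (Or.inl rfl))))
  rw [rr_comm G t j] at e1
  linarith

end PS

end Pool.Agent.Helper51.W2
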