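import Pool.Agent.Helper51.W2.Dup2

/-!
# Deletion of parallel handles: balanced sets with three neighbours do not contain `p`
-/

set_option autoImplicit false

namespace Pool.Agent.Helper51.W2

open SimpleGraph Pool.Agent.Helper57.TOK Pool.Agent.Helper57.TD Pool.Agent.Helper57.TOP
  Pool.Agent.Helper82.TK Pool.Agent.Helper20.HD

variable {V : Type*} {G : SimpleGraph V} {U D : Set V} {p : V}

/-- The bad case: the remaining handle and its end `x` of the other colour are neighbours. -/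
lemma dup_bad [Finite V] (hD : DupOK G U p D) {Y' : Set V} {κ' : V → ZMod 2}
    (hY : Y' ⊆ U \ D) (hb : PB (delS G D) κ' Y') (h3 : (Nb (delS G D) Y').ncard ≤ 3)
    (hp : p ∈ Y') {d' x : V} (hd' : Hand G d' p x) (hdN : d' ∈ Nb (delS G D) Y')
    (hxN : x ∈ Nb (delS G D) Y') : False := by
  classical
  set G' := delS G D with hG'
  have hle : ∀ u v, G'.Adj u v → G.Adj u v := fun u v h => h.1
  have hdx : d' ≠ x := hd'.hq.ne
  have hdU : d' ∈ U \ D := by
    obtain ⟨-, u, -, hu⟩ := hdN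
    exact hD.pre.edge_mem d' u hu.symm
  set Y : Set V := insert d' Y' with hYdef
  have hYN : ∀ v ∈ Nb G' Y, v ∈ Nb G' Y' ∧ v ≠ d' := by
    rintro v ⟨hv, u, hu, huv⟩
    have hvd : v ≠ d' := fun h => hv (Or.inl h)
    have hvY : v ∉ Y' := fun h => hv (Or.inr h)
    refine ⟨?_, hvd⟩
    rcases hu with rfl | hu
    · rcases hd'.adj.1 (hle _ _ huv) with h | h
      · exact absurd (h ▸ hp) hvY
      · exact h ▸ hxN
    · exact ⟨hvY, u, hu, huv⟩
  have hN2 : (Nb G' Y).ncard ≤ 2 := by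
    have h1 : Nb G' Y ⊆ Nb G' Y' \ {d'} := fun v hv => ⟨(hYN v hv).1, (hYN v hv).2⟩
    have h2 := Set.ncard_le_ncard h1 (Set.toFinite _)
    rw [Set.ncard_sdiff_singleton_of_mem hdN] at h2
    omega
  have hY2 : 2 ≤ Y.ncard := by
    have h1 : ({d', p} : Set V) ⊆ Y := by
      rintro v (rfl | hv)
      · exact Or.inl rfl
      · rw [Set.mem_singleton_iff] at hv; rw [hv]; exact Or.inr hp
    have h2 := Set.ncard_le_ncard h1 (Set.toFinite _)
    rwa [Set.ncard_pair hd'.hp.ne] at h2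
  have hr := hD.pre.conn Y (by
    rintro v (rfl | hv)
    · exact hdU
    · exact hY hv) hY2 hN2
  -- at most one further neighbour
  have hone : ∀ u v, u ∈ Nb G' Y' → v ∈ Nb G' Y' → u ≠ d' → v ≠ d' → u ≠ x → v ≠ x → u = v := by
    intro u v hu hv hu1 hv1 hu2 hv2
    by_contra hne
    have h1 : ({d', x, u, v} : Set V) ⊆ Nb G' Y' := by
      rintro w (rfl | rfl | rfl | hw)
      · exact hdN
      · exact hxN
      · exact hu
      · rw [Set.mem_singleton_iff] at hw; rw [hw]; exact hv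
    have h2 := Set.ncard_le_ncard h1 (Set.toFinite _)
    rw [Set.ncard_insert_of_notMem, Set.ncard_insert_of_notMem, Set.ncard_pair hne] at h2
    · omega
    · rintro (h | h)
      · exact hu2 h.symm
      · exact hv2 (Set.mem_singleton_iff.1 h).symm
    · rintro (h | h | h)
      · exact hdx h
      · exact hu1 h.symm
      · exact hv1 (Set.mem_singleton_iff.1 h).symm
  set R : Set V := (U \ D) \ (Y ∪ Nb G' Y) with hR
  -- classes of vertices outside `Y'`
  have hcls : ∀ u v, u ≠ x → v ≠ x → G'.Adj u v → u ∉ Y' → v ∉ Y' →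
      (u ∈ Nb G' Y' ∧ v ∈ R ∧ v ∉ Nb G' Y') ∨ (v ∈ Nb G' Y' ∧ u ∈ R ∧ u ∉ Nb G' Y') := by
    intro u v hux hvx huv huY hvY
    have nd : ∀ a b, a ≠ x → b ≠ x → G'.Adj a b → a ∉ Y' → b ∉ Y' → a ≠ d' := by
      rintro a b - hbx hab - hbY rfl
      rcases hd'.adj.1 (hle _ _ hab) with h | h
      · exact hbY (h ▸ hp)
      · exact hbx h
    have hud := nd u v hux hvx huv huY hvY
    have hvd := nd v u hvx hux huv.symm hvY huY
    have toR : ∀ w, w ∈ U \ D → w ∉ Y' → w ≠ d' → w ∉ Nb G' Y' → w ∈ R := by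
      intro w h1 h2 h3 h4
      refine ⟨h1, ?_⟩
      rintro ((h | h) | h)
      · exact h3 h
      · exact h2 h
      · exact h4 (hYN w h).1
    have huU := hD.pre.edge_mem u v huv
    have hvU := hD.pre.edge_mem v u huv.symm
    by_cases hu : u ∈ Nb G' Y'
    · by_cases hv : v ∈ Nb G' Y'
      · exact absurd (hone u v hu hv hud hvd hux hvx) huv.ne
      · exact Or.inl ⟨hu, toR v hvU hvY hvd hv, hv⟩
    · by_cases hv : v ∈ Nb G' Y'
      · exact Or.inr ⟨hv, toR u huU huY hud hu, hu⟩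
      · exfalso
        exact huv.ne ((Set.ncard_le_one (Set.toFinite _)).1 hr u (toR u huU huY hud hu) v
          (toR v hvU hvY hvd hv))
  -- the further neighbour
  obtain ⟨n, hn⟩ : ∃ n, ∀ u, u ∈ Nb G' Y' → u ≠ d' → u ≠ x → u = n := by
    by_cases h : ∃ n, n ∈ Nb G' Y' ∧ n ≠ d' ∧ n ≠ x
    · obtain ⟨n, h1, h2, h4⟩ := h
      exact ⟨n, fun u hu h5 h6 => hone u n hu h1 h5 h2 h6 h4⟩
    · push Not at h
      exact ⟨x, fun u hu h5 h6 => absurd (h u hu h5) h6⟩
  refine idx_one hD.preD x (fun v => if v ∈ Y' ∨ v ∈ Nb G' Y' then κ' v else κ' n + 1) ?_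
  have one : ∀ a : ZMod 2, a + 1 ≠ a := by decide
  intro u v hux hvx huv
  show (if u ∈ Y' ∨ u ∈ Nb G' Y' then κ' u else κ' n + 1) ≠
    (if v ∈ Y' ∨ v ∈ Nb G' Y' then κ' v else κ' n + 1)
  by_cases huY : u ∈ Y'
  · have hv : v ∈ Y' ∨ v ∈ Nb G' Y' := by
      by_cases h : v ∈ Y'
      · exact Or.inl h
      · exact Or.inr ⟨h, u, huY, huv⟩
    rw [if_pos (Or.inl huY), if_pos hv]
    exact hb u v huY huv
  by_cases hvY : v ∈ Y'
  · have hu : u ∈ Y' ∨ u ∈ Nb G' Y' := Or.inr ⟨huY, v, hvY, huv.symm⟩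
    rw [if_pos (Or.inl hvY), if_pos hu]
    exact (hb v u hvY huv.symm).symm
  have nd' : ∀ a b, a ≠ x → b ≠ x → G'.Adj a b → a ∉ Y' → b ∉ Y' → a ≠ d' := by
    rintro a b - hbx hab - hbY rfl
    rcases hd'.adj.1 (hle _ _ hab) with h | h
    · exact hbY (h ▸ hp)
    · exact hbx h
  rcases hcls u v hux hvx huv huY hvY with ⟨h1, -, h4⟩ | ⟨h1, -, h4⟩
  · have h5 := hn u h1 (nd' u v hux hvx huv huY hvY) hux
    rw [if_pos (Or.inr h1), if_neg (by rintro (h | h); exacts [hvY h, h4 h]), h5]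
    exact (one _).symm
  · have h5 := hn v h1 (nd' v u hvx hux huv.symm hvY huY) hvx
    rw [if_pos (Or.inr h1), if_neg (by rintro (h | h); exacts [huY h, h4 h]), h5]
    exact one _

/-- **Balanced sets with three neighbours do not contain `p`.** -/
theorem dup_notMem [Finite V] (hD : DupOK G U p D)
    (he : Exc1 G U p) {Y' : Set V} {κ' : V → ZMod 2} (hY : Y' ⊆ U \ D)
    (hb : PB (delS G D) κ' Y') (h3 : (Nb (delS G D) Y').ncard ≤ 3) : p ∉ Y' := by
  classical
  intro hpY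
  set G' := delS G D with hG'
  have hle : ∀ u v, G'.Adj u v → G.Adj u v := fun u v h => h.1
  have hcl : ∀ u v, u ∈ Y' → G'.Adj u v → v ∈ Y' ∨ v ∈ Nb G' Y' := by
    intro u v hu huv
    by_cases h : v ∈ Y'
    · exact Or.inl h
    · exact Or.inr ⟨h, u, hu, huv⟩
  have two : ∀ a b c : ZMod 2, a ≠ b → b ≠ c → a = c := by decide
  have one : ∀ a : ZMod 2, a + 1 ≠ a := by decide
  have one' : ∀ a b : ZMod 2, a ≠ b → b = a + 1 := by decide
  -- the duplicated ends
  set E : Set V := {e | e ∈ Nb G' Y' ∧ ∃ d ∈ D, ∃ x, Hand G d p x ∧ Hand G e p x} with hE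
  set κ : V → ZMod 2 := fun v => if v ∈ D then κ' p + 1 else
    if v ∈ Y' ∨ v ∈ Nb G' Y' then κ' v else κ' p with hκ
  have kD : ∀ v ∈ D, κ v = κ' p + 1 := fun v hv => by rw [hκ]; simp only; rw [if_pos hv]
  have kY : ∀ v, v ∉ D → (v ∈ Y' ∨ v ∈ Nb G' Y') → κ v = κ' v := fun v hv h => by
    rw [hκ]; simp only; rw [if_neg hv, if_pos h]
  have kO : ∀ v, v ∉ D → ¬ (v ∈ Y' ∨ v ∈ Nb G' Y') → κ v = κ' p := fun v hv h => by
    rw [hκ]; simp only; rw [if_neg hv, if_neg h]
  have hpD : p ∉ D := hD.pD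
  have kp : κ p = κ' p := kY p hpD (Or.inl hpY)
  have hYD : ∀ v, v ∈ Y' → v ∉ D := fun v hv => (hY hv).2
  have hND : ∀ v, v ∈ Nb G' Y' → v ∉ D := by
    rintro v ⟨-, u, -, hu⟩
    exact hu.2.2
  -- the colour of the ends of duplicated handles
  have kx : ∀ d ∈ D, ∀ x, Hand G d p x → x ∉ D ∧ κ x = κ' p := by
    intro d hd x hdx
    obtain ⟨d', y, a1, a2, a3, a4, a5, a6, a7⟩ := hD.twin d hd
    have hyx : y = x := by
      have h1 : y ∈ G.neighborSet d := by rw [a6.nb]; exact Or.inr rfl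
      rw [hdx.nb] at h1
      rcases h1 with h | h
      · exact absurd h a6.ne.symm
      · exact h
    subst hyx
    refine ⟨a4, ?_⟩
    have hd'p : G'.Adj p d' := ⟨a7.hp.symm, hpD, a2⟩
    have hd'x : G'.Adj d' y := ⟨a7.hq, a2, a4⟩
    have kd' : κ' p ≠ κ' d' := hb p d' hpY hd'p
    by_cases hx : y ∈ Y' ∨ y ∈ Nb G' Y'
    · rw [kY y a4 hx]
      rcases hcl p d' hpY hd'p with h1 | h1
      · exact (two _ _ _ kd' (hb d' y h1 hd'x)).symm
      · rcases hx with hx | hx
        · exact (two _ _ _ kd' (hb y d' hx hd'x.symm).symm).symm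
        · exact (dup_bad hD hY hb h3 hpY a7 h1 hx).elim
    · exact kO y a4 hx
  set Y : Set V := Y' ∪ (D ∪ E) with hYdef
  have hYU : Y ⊆ U := by
    rintro v (hv | hv | hv)
    · exact (hY hv).1
    · exact hD.sub hv
    · obtain ⟨⟨-, u, -, hu⟩, -⟩ := hv
      exact (hD.pre.edge_mem v u hu.symm).1
  have hPB : PB G κ Y := by
    rintro u v (hu | hu | hu) huv
    · by_cases hvD : v ∈ D
      · obtain ⟨d', y, -, -, -, -, -, a6, -⟩ := hD.twin v hvD
        rw [kD v hvD]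
        rcases a6.adj.1 huv.symm with h | h
        · rw [h, kp]; exact (one _).symm
        · rw [h, (kx v hvD y a6).2]; exact (one _).symm
      · have h1 : G'.Adj u v := ⟨huv, hYD u hu, hvD⟩
        rw [kY u (hYD u hu) (Or.inl hu), kY v hvD (hcl u v hu h1)]
        exact hb u v hu h1
    · obtain ⟨d', y, -, -, -, -, -, a6, -⟩ := hD.twin u hu
      rw [kD u hu]
      rcases a6.adj.1 huv with h | h
      · rw [h, kp]; exact one _
      · rw [h, (kx u hu y a6).2]; exact one _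
    · obtain ⟨hu1, d, hd, x, b1, b2⟩ := hu
      have huD := hND u hu1
      have h1 : G'.Adj p u := ⟨b2.hp.symm, hpD, huD⟩
      have h2 : κ u = κ' p + 1 := by
        rw [kY u huD (Or.inr hu1)]
        exact one' _ _ (hb p u hpY h1)
      rw [h2]
      rcases b2.adj.1 huv with h | h
      · rw [h, kp]; exact one _
      · rw [h, (kx d hd x b1).2]; exact one _
  -- the neighbours
  set X : Set V := {x | ∃ e ∈ E, Hand G e p x} with hX
  have hXE : X.ncard ≤ E.ncard := by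
    have hch : ∀ x ∈ X, ∃ e, e ∈ E ∧ Hand G e p x := by
      rintro x ⟨e, he1, he2⟩; exact ⟨e, he1, he2⟩
    choose! g hg1 hg2 using hch
    refine Set.ncard_le_ncard_of_injOn g (fun x hx => hg1 x hx) ?_ (Set.toFinite _)
    intro x hx y hy hxy
    have h1 := hg2 x hx
    have h2 := hg2 y hy
    rw [← hxy] at h2
    have h4 : x ∈ G.neighborSet (g x) := by rw [h1.nb]; exact Or.inr rfl
    rw [h2.nb] at h4
    rcases h4 with h | h
    · exact absurd h h1.ne.symm
    · exact h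
  have hNb : Nb G Y ⊆ (Nb G' Y' \ E) ∪ X := by
    rintro v ⟨hv, u, hu, huv⟩
    have hvY : v ∉ Y' := fun h => hv (Or.inl h)
    have hvD : v ∉ D := fun h => hv (Or.inr (Or.inl h))
    have hvE : v ∉ E := fun h => hv (Or.inr (Or.inr h))
    have hvp : v ≠ p := fun h => hvY (h ▸ hpY)
    rcases hu with hu | hu | hu
    · left
      exact ⟨⟨hvY, u, hu, huv, hYD u hu, hvD⟩, hvE⟩
    · obtain ⟨d', y, a1, a2, a3, a4, a5, a6, a7⟩ := hD.twin u hu
      have hvy : v = y := (a6.adj.1 huv).resolve_left hvp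
      subst hvy
      by_cases hvN : v ∈ Nb G' Y'
      · exact Or.inl ⟨hvN, hvE⟩
      · right
        have hd'p : G'.Adj p d' := ⟨a7.hp.symm, hpD, a2⟩
        have hd'x : G'.Adj d' v := ⟨a7.hq, a2, a4⟩
        rcases hcl p d' hpY hd'p with h1 | h1
        · exact absurd (hcl d' v h1 hd'x) (by rintro (h | h); exacts [hvY h, hvN h])
        · exact ⟨d', ⟨h1, u, hu, v, a6, a7⟩, a7⟩
    · right
      obtain ⟨hu1, d, hd, x, b1, b2⟩ := hu
      have hvx : v = x := (b2.adj.1 huv).resolve_left hvp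
      subst hvx
      exact ⟨u, ⟨hu1, d, hd, v, b1, b2⟩, b2⟩
  have hcard : (Nb G Y).ncard ≤ 3 := by
    have h1 := Set.ncard_le_ncard hNb (Set.toFinite _)
    have h2 := Set.ncard_union_le (Nb G' Y' \ E) X
    have h4 : E ⊆ Nb G' Y' := fun v hv => hv.1
    have h5 := Set.ncard_sdiff_add_ncard_of_subset h4 (Set.toFinite _)
    omega
  exact he.notMem Y hYU κ hPB hcard (Or.inl hpY)

end Pool.Agent.Helper51.W2
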