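import Pool.Agent.Helper82.TK.HCases
import Pool.Agent.Helper57.TOK.SubFold

/-!
# The contraction of a handle

`h` has the neighbours `p` and `q`, which are not adjacent. The fold `foldG G h p q` on
`U \ {h, q}`: edges, degrees, index, number of edges, connectivity.
-/

set_option autoImplicit false

namespace Pool.Agent.Helper51.W2

open SimpleGraph Pool.Agent.Helper57.TOK Pool.Agent.Helper57.TD Pool.Agent.Helper57.TOP
  Pool.Agent.Helper82.TK

variable {V : Type*} {G : SimpleGraph V} {U : Set V} {h p q : V}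

lemma fold_edge_mem (he : ∀ u v, G.Adj u v → u ∈ U) (hpU : p ∈ U) (u v : V)
    (huv : (foldG G h p q).Adj u v) : u ∈ U \ {h, q} := by
  obtain ⟨-, h2, -, h4, -, h6⟩ := foldG_adj.1 huv
  refine ⟨?_, ?_⟩
  · rcases h6 with h6 | ⟨h6, -⟩ | ⟨-, h6⟩
    · exact he u v h6
    · rw [h6]; exact hpU
    · exact he u q h6.symm
  · rintro (h7 | h7)
    · exact h2 h7
    · exact h4 h7

/-- Old adjacency outside `p`, `q`, `h`. -/
lemma fold_adj_of (hh : Hand G h p q) {u v : V} (hup : u ≠ p) (huq : u ≠ q) (huh : u ≠ h)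
    (hvq : v ≠ q) (huv : G.Adj u v) : (foldG G h p q).Adj u v := by
  refine foldG_adj.2 ⟨huv.ne, huh, ?_, huq, hvq, Or.inl huv⟩
  rintro rfl
  rcases hh.adj.1 huv.symm with h1 | h1
  · exact hup h1
  · exact huq h1

/-- Degrees in the fold. -/
lemma fold_deg2 [Finite V] (hM : GMin G U) (hU : h ∈ U) (hh : Hand G h p q)
    (hpq : ¬ G.Adj p q) (y : V) (hy : y ∈ U \ {h, q}) :
    2 ≤ ((foldG G h p q).neighborSet y).ncard := by
  classical
  have hyh : y ≠ h := fun hh' => hy.2 (Or.inl hh')
  have hyq : y ≠ q := fun hh' => hy.2 (Or.inr hh')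
  by_cases hyp : y = p
  · subst hyp
    have h3 := gmin_hand_real hM hU hh
    have h4 : G.neighborSet y \ {h} ⊆ (foldG G h y q).neighborSet y := by
      rintro v ⟨hv, hvh⟩
      have hv' : G.Adj y v := hv
      refine foldG_adj.2 ⟨hv'.ne, hyh, hvh, hyq, ?_, Or.inl hv'⟩
      rintro rfl
      exact hpq hv'
    have h5 := Set.ncard_le_ncard h4 (Set.toFinite _)
    rw [Set.ncard_sdiff_singleton_of_mem (by exact hh.hp.symm)] at h5
    omega
  · have hd := hM.ex.deg2 y hy.1
    have h4 : G.neighborSet y \ {q} ⊆ (foldG G h p q).neighborSet y := by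
      rintro v ⟨hv, hvq⟩
      exact fold_adj_of hh hyp hyq hyh hvq hv
    by_cases hq : G.Adj y q
    · by_cases hp : G.Adj y p
      · have h3 : 3 ≤ (G.neighborSet y).ncard := by
          by_contra hlt
          have h2 : (G.neighborSet y).ncard = 2 := by omega
          have h6 : ({p, q} : Set V) ⊆ G.neighborSet y := by
            rintro v (rfl | rfl)
            · exact hp
            · exact hq
          have h7 : G.neighborSet y = {p, q} := by
            symm
            refine Set.eq_of_subset_of_ncard_le h6 ?_ (Set.toFinite _)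
            rw [h2, Set.ncard_pair hh.ne]
          exact hyh (gmin_hand_unique hM hU hh hy.1 ⟨hh.ne, h7⟩).symm
        have h5 := Set.ncard_le_ncard h4 (Set.toFinite _)
        rw [Set.ncard_sdiff_singleton_of_mem (by exact hq)] at h5
        omega
      · have h6 : insert p (G.neighborSet y \ {q}) ⊆ (foldG G h p q).neighborSet y := by
          rintro v (rfl | hv)
          · exact foldG_adj.2 ⟨hyp, hyh, hh.hp.ne.symm, hyq, hh.ne, Or.inr (Or.inr ⟨rfl, hq.symm⟩)⟩
          · exact h4 hv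
        have h5 := Set.ncard_le_ncard h6 (Set.toFinite _)
        rw [Set.ncard_insert_of_notMem (fun h7 => hp h7.1) (Set.toFinite _),
          Set.ncard_sdiff_singleton_of_mem (by exact hq)] at h5
        omega
    · have h6 : G.neighborSet y \ {q} = G.neighborSet y := by
        ext v
        constructor
        · exact fun h7 => h7.1
        · exact fun h7 => ⟨h7, fun h8 => hq (by rw [Set.mem_singleton_iff] at h8; exact h8 ▸ h7)⟩
      rw [h6] at h4
      have h5 := Set.ncard_le_ncard h4 (Set.toFinite _)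
      omega

/-- Index of the fold: two vertices different from `p`. -/
lemma fold_idxp (hi : Ind3 G) (hh : Hand G h p q) (hpq : ¬ G.Adj p q) (z1 z2 : V)
    (h1 : z1 ≠ p) (h2 : z2 ≠ p) (κ : V → ZMod 2) :
    ¬ ∀ u v, u ≠ z1 → u ≠ z2 → v ≠ z1 → v ≠ z2 → (foldG G h p q).Adj u v → κ u ≠ κ v := by
  classical
  intro hκ
  set κ' : V → ZMod 2 := fun x => if x = q then κ p else if x = h then κ p + 1 else κ x with hκ'
  have kq : κ' q = κ p := by rw [hκ']; simp
  have hhq : h ≠ q := hh.hq.ne
  have kh : κ' h = κ p + 1 := by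
    show (if h = q then κ p else if h = h then κ p + 1 else κ h) = κ p + 1
    rw [if_neg hhq, if_pos rfl]
  have ko : ∀ x, x ≠ q → x ≠ h → κ' x = κ x := by
    intro x hx1 hx2; rw [hκ']; simp only; rw [if_neg hx1, if_neg hx2]
  have kp : κ' p = κ p := ko p hh.ne hh.hp.ne.symm
  have one : ∀ a : ZMod 2, a + 1 ≠ a := by decide
  -- the directed statement
  have key : ∀ u v, u ≠ z1 → u ≠ z2 → v ≠ z1 → v ≠ z2 → G.Adj u v → (u = h ∨ u = q) →
      κ' u ≠ κ' v := by
    rintro u v hu1 hu2 hv1 hv2 huv (hu | hu)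
    · subst hu
      rw [kh]
      rcases hh.adj.1 huv with h3 | h3
      · rw [h3, kp]; exact one _
      · rw [h3, kq]; exact one _
    · subst hu
      by_cases hvh : v = h
      · rw [hvh, kh, kq]; exact (one _).symm
      · have hvp : v ≠ p := fun h3 => hpq (h3 ▸ huv.symm)
        rw [kq, ko v huv.ne.symm hvh]
        exact hκ p v h1.symm h2.symm hv1 hv2 (foldG_adj.2 ⟨hvp.symm, hh.hp.ne.symm, hvh, hh.ne,
          huv.ne.symm, Or.inr (Or.inl ⟨rfl, huv⟩)⟩)
  refine hi z1 z2 κ' ?_
  intro u v hu1 hu2 hv1 hv2 huv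
  by_cases hu : u = h ∨ u = q
  · exact key u v hu1 hu2 hv1 hv2 huv hu
  by_cases hv : v = h ∨ v = q
  · exact (key v u hv1 hv2 hu1 hu2 huv.symm hv).symm
  push Not at hu hv
  rw [ko u hu.2 hu.1, ko v hv.2 hv.1]
  exact hκ u v hu1 hu2 hv1 hv2 (foldG_adj.2 ⟨huv.ne, hu.1, hv.1, hu.2, hv.2, Or.inl huv⟩)

/-- Index of the fold, one vertex. -/
lemma fold_index2 (hi : Ind3 G) (hh : Hand G h p q) (hpq : ¬ G.Adj p q) (w : V)
    (κ : V → ZMod 2) :
    ¬ ∀ u v, u ≠ w → v ≠ w → (foldG G h p q).Adj u v → κ u ≠ κ v := by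
  intro hκ
  by_cases hw : w = p
  · subst hw
    refine hi w q κ ?_
    intro u v hu1 hu2 hv1 hv2 huv
    have huh : u ≠ h := by
      rintro rfl
      rcases hh.adj.1 huv with h3 | h3
      · exact hv1 h3
      · exact hv2 h3
    have hvh : v ≠ h := by
      rintro rfl
      rcases hh.adj.1 huv.symm with h3 | h3
      · exact hu1 h3
      · exact hu2 h3
    exact hκ u v hu1 hv1 (foldG_adj.2 ⟨huv.ne, huh, hvh, hu2, hv2, Or.inl huv⟩)
  · exact fold_idxp hi hh hpq w w hw hw κ (fun u v h1 _ h2 _ h3 => hκ u v h1 h2 h3)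

/-- Number of edges of the fold. -/
lemma fold_edges [Finite V] (he : ∀ u v, G.Adj u v → u ∈ U) (hU : h ∈ U)
    (hh : Hand G h p q) (hpq : ¬ G.Adj p q) :
    (foldG G h p q).edgeSet.ncard + ({w | w ≠ h ∧ G.Adj p w ∧ G.Adj q w}).ncard + 2 =
      G.edgeSet.ncard := by
  classical
  have hpU : p ∈ U := he p h hh.hp.symm
  have hqU : q ∈ U := he q h hh.hq.symm
  have hph : p ≠ h := hh.hp.ne.symm
  have hqh : q ≠ h := hh.hq.ne.symm
  have h1 := rho_foldG_of_mem (G := G) (y := h) (a := p) (b := q) (Y := U \ {h, q}) hh.ne hph hqh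
    hpq ⟨hpU, by rintro (h1 | h1); exacts [hph h1, hh.ne h1]⟩ (fun h1 => h1.2 (Or.inr rfl))
    (fun h1 => h1.2 (Or.inl rfl))
  have h2 : insert h (insert q (U \ {h, q})) = U := by
    ext x
    constructor
    · rintro (rfl | rfl | hx)
      · exact hU
      · exact hqU
      · exact hx.1
    · intro hx
      by_cases h3 : x = h
      · exact Or.inl h3
      by_cases h4 : x = q
      · exact Or.inr (Or.inl h4)
      · exact Or.inr (Or.inr ⟨hx, by rintro (h5 | h5); exacts [h3 h5, h4 h5]⟩)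
  have h3 : (G.neighborSet h).ncard = 2 := by rw [hh.nb, Set.ncard_pair hh.ne]
  have h4 : ∀ (H : SimpleGraph V) (W : Set V), (∀ u v, H.Adj u v → u ∈ W) →
      rho H W = H.edgeSet.ncard := by
    intro H W hW
    unfold rho
    congr 1
    ext e
    induction e using Sym2.ind with
    | _ u v =>
      rw [mem_EAt]
      constructor
      · exact fun h5 => h5.1
      · exact fun h5 => ⟨h5, Or.inl (hW u v h5)⟩
  rw [h2, h4 G U he, h3, h4 (foldG G h p q) (U \ {h, q}) (fold_edge_mem he hpU)] at h1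
  exact h1

/-- A set of vertices of degree two with neighbours in `{p, q, x}` is a pair of handles at `x`. -/
lemma handles_pair [Finite V] (hM : GMin G U) (hU : h ∈ U) (hh : Hand G h p q) {x : V}
    {X : Set V} (hX : X ⊆ U) (hXh : h ∉ X) (h2 : 2 ≤ X.ncard)
    (hN : ∀ u ∈ X, ∀ v, G.Adj u v → v ∈ X ∨ v = p ∨ v = q ∨ v = x)
    (hd : ∀ u ∈ X, (G.neighborSet u).ncard ≤ 2) :
    ∃ z z', z ≠ z' ∧ X = {z, z'} ∧ Hand G z p x ∧ Hand G z' q x := by
  classical
  have hin : ∀ u ∈ X, ∀ v ∈ X, ¬ G.Adj u v := by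
    intro u hu v hv huv
    have h3 := hM.ex.deg2 u (hX hu)
    have h4 := hd u hu
    obtain ⟨a, b, hab, hs⟩ := Set.ncard_eq_two.1 (by omega : (G.neighborSet u).ncard = 2)
    have hand : Hand G u a b := ⟨hab, hs⟩
    have hv1 : v = a ∨ v = b := hand.adj.1 huv
    have h5 := hd v hv
    rcases hv1 with rfl | rfl
    · have := gmin_hand_real hM (hX hu) hand
      omega
    · have := gmin_hand_real hM (hX hu) hand.symm
      omega
  have hcl : ∀ u ∈ X, Hand G u p x ∨ Hand G u q x := by
    intro u hu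
    have h3 := hM.ex.deg2 u (hX hu)
    have h4 := hd u hu
    obtain ⟨a, b, hab, hs⟩ := Set.ncard_eq_two.1 (by omega : (G.neighborSet u).ncard = 2)
    have hand : Hand G u a b := ⟨hab, hs⟩
    have ha : a = p ∨ a = q ∨ a = x := by
      rcases hN u hu a (hand.adj.2 (Or.inl rfl)) with h5 | h5
      · exact absurd (hand.adj.2 (Or.inl rfl)) (hin u hu a h5)
      · exact h5
    have hb : b = p ∨ b = q ∨ b = x := by
      rcases hN u hu b (hand.adj.2 (Or.inr rfl)) with h5 | h5
      · exact absurd (hand.adj.2 (Or.inr rfl)) (hin u hu b h5)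
      · exact h5
    have huh : u ≠ h := fun h5 => hXh (h5 ▸ hu)
    rcases ha with rfl | rfl | rfl <;> rcases hb with rfl | rfl | rfl
    · exact absurd rfl hab
    · exact absurd (gmin_hand_unique hM hU hh (hX hu) hand) huh.symm
    · exact Or.inl hand
    · exact absurd (gmin_hand_unique hM hU hh (hX hu) hand.symm) huh.symm
    · exact absurd rfl hab
    · exact Or.inr hand
    · exact Or.inl hand.symm
    · exact Or.inr hand.symm
    · exact absurd rfl hab
  have huniq : ∀ {r : V} {u u' : V}, u ∈ X → u' ∈ X → Hand G u r x → Hand G u' r x → u = u' :=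
    fun hu hu' a1 a2 => gmin_hand_unique hM (hX hu) a1 (hX hu') a2
  have key : ∀ z z', z ∈ X → z' ∈ X → z ≠ z' → Hand G z p x → Hand G z' q x →
      ∃ z z', z ≠ z' ∧ X = {z, z'} ∧ Hand G z p x ∧ Hand G z' q x := by
    intro z z' hz hz' hne a1 a2
    refine ⟨z, z', hne, ?_, a1, a2⟩
    ext u
    constructor
    · intro hu
      rcases hcl u hu with h3 | h3
      · exact Or.inl (huniq hu hz h3 a1)
      · exact Or.inr (huniq hu hz' h3 a2)
    · rintro (rfl | hu)
      · exact hz
      · rw [Set.mem_singleton_iff] at hu; rw [hu]; exact hz'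
  obtain ⟨z, z', hz, hz', hne⟩ := (Set.one_lt_ncard_iff (Set.toFinite X)).1 (by omega)
  rcases hcl z hz with h3 | h3 <;> rcases hcl z' hz' with h4 | h4
  · exact absurd (huniq hz hz' h3 h4) hne
  · exact key z z' hz hz' hne h3 h4
  · exact key z' z hz' hz hne.symm h4 h3
  · exact absurd (huniq hz hz' h3 h4) hne

end Pool.Agent.Helper51.W2
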