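import Pool.Agent.Helper20.HD.Defs

/-!
# Deletion of parallel handles: existence
-/

set_option autoImplicit false

namespace Pool.Agent.Helper51.W2

open SimpleGraph Pool.Agent.Helper57.TOK Pool.Agent.Helper57.TD Pool.Agent.Helper57.TOP
  Pool.Agent.Helper82.TK Pool.Agent.Helper20.HD

variable {V : Type*} {G : SimpleGraph V} {U : Set V} {p x d d' : V}

/-- A pair of parallel handles. -/
structure Tw (G : SimpleGraph V) (U : Set V) (p x d d' : V) : Prop where
  pre : PreD G U p
  ne : d ≠ d'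
  hd : Hand G d p x
  hd' : Hand G d' p x

namespace Tw

lemma dU (t : Tw G U p x d d') : d ∈ U := t.pre.edge_mem d p t.hd.hp
lemma dU' (t : Tw G U p x d d') : d' ∈ U := t.pre.edge_mem d' p t.hd'.hp
lemma xU (t : Tw G U p x d d') : x ∈ U := t.pre.edge_mem x d t.hd.hq.symm
lemma px (t : Tw G U p x d d') : p ≠ x := t.hd.ne
lemma dp (t : Tw G U p x d d') : d ≠ p := t.hd.hp.ne
lemma dx (t : Tw G U p x d d') : d ≠ x := t.hd.hq.ne
lemma dp' (t : Tw G U p x d d') : d' ≠ p := t.hd'.hp.ne
lemma dx' (t : Tw G U p x d d') : d' ≠ x := t.hd'.hq.ne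
lemma swap (t : Tw G U p x d d') : Tw G U p x d' d := ⟨t.pre, t.ne.symm, t.hd', t.hd⟩

lemma nadj (t : Tw G U p x d d') : ¬ G.Adj d d' := by
  intro h
  rcases t.hd.adj.1 h with h1 | h1
  · exact t.dp' h1
  · exact t.dx' h1

end Tw

/-- A set with a bipartition outside `w`. -/
lemma idx_one (hp : PreD G U p) (w : V) (κ : V → ZMod 2) :
    ¬ ∀ u v, u ≠ w → v ≠ w → G.Adj u v → κ u ≠ κ v := by
  intro hκ
  by_cases hw : w = p
  · subst hw
    exact hp.idxp κ (fun u v h1 _ h3 _ h5 => hκ u v h1 h3 h5)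
  · exact hp.idx w w hw hw κ (fun u v h1 _ h3 _ h5 => hκ u v h1 h3 h5)

/-- The exceptional sets do not have at least three elements and do not contain `p`. -/
lemma conn3 (hp : PreD G U p) {Y : Set V} (hY : Y ⊆ U) (h3 : 3 ≤ Y.ncard)
    (hN : (Nb G Y).ncard ≤ 2) (hr : 2 ≤ (U \ (Y ∪ Nb G Y)).ncard) :
    ∃ h1 h2 y, h1 ≠ h2 ∧ Hand G h1 p y ∧ Hand G h2 p y ∧ U \ (Y ∪ Nb G Y) = {h1, h2} ∧ p ∉ Y := by
  obtain ⟨h1, h2, y, a1, a2, a3, a4 | a4⟩ := hp.conn Y hY (by omega) hN hr
  · rw [a4, Set.ncard_pair a1] at h3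
    omega
  · refine ⟨h1, h2, y, a1, a2, a3, a4, ?_⟩
    intro hpY
    have h4 : h1 ∈ U \ (Y ∪ Nb G Y) := by rw [a4]; exact Or.inl rfl
    refine h4.2 (Or.inr ⟨fun h5 => h4.2 (Or.inl h5), p, hpY, a2.hp.symm⟩)

lemma three_set {a b c : V} (h1 : a ≠ b) (h2 : a ≠ c) (h3 : b ≠ c) :
    ({a, b, c} : Set V).ncard = 3 := Set.ncard_eq_three.2 ⟨a, b, c, h1, h2, h3, rfl⟩

/-- `x` has a further neighbour, different from `p`. -/
lemma Tw.third [Finite V] (t : Tw G U p x d d') :
    ∃ y, G.Adj x y ∧ y ≠ p ∧ y ≠ d ∧ y ≠ d' := by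
  classical
  by_contra hcon
  push Not at hcon
  have hx : ∀ y, G.Adj x y → y = p ∨ y = d ∨ y = d' := by
    intro y hy
    by_contra h1
    push Not at h1
    exact h1.2.2 (hcon y hy h1.1 h1.2.1)
  set Y : Set V := {x, d, d'} with hY
  have hYU : Y ⊆ U := by
    rintro v (rfl | rfl | hv)
    · exact t.xU
    · exact t.dU
    · rw [Set.mem_singleton_iff] at hv; rw [hv]; exact t.dU'
  have hY3 : Y.ncard = 3 := three_set t.dx.symm t.dx'.symm t.ne
  have hN : ∀ v ∈ Nb G Y, v = p := by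
    rintro v ⟨hv, u, hu, huv⟩
    rcases hu with rfl | rfl | hu
    · rcases hx v huv with h1 | h1 | h1
      · exact h1
      · exact absurd (Or.inr (Or.inl h1)) hv
      · exact absurd (Or.inr (Or.inr h1)) hv
    · rcases t.hd.adj.1 huv with h1 | h1
      · exact h1
      · exact absurd (Or.inl h1) hv
    · rw [Set.mem_singleton_iff] at hu
      subst hu
      rcases t.hd'.adj.1 huv with h1 | h1
      · exact h1
      · exact absurd (Or.inl h1) hv
  have hN1 : (Nb G Y).ncard ≤ 1 := by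
    have h1 : Nb G Y ⊆ {p} := fun v hv => hN v hv
    have h2 := Set.ncard_le_ncard h1 (Set.toFinite _)
    rwa [Set.ncard_singleton] at h2
  by_cases hr : 2 ≤ (U \ (Y ∪ Nb G Y)).ncard
  · obtain ⟨h1, h2, y, a1, a2, a3, a4, -⟩ := conn3 t.pre hYU hY3.ge (by omega) hr
    have hyU : y ∈ U := t.pre.edge_mem y h1 a2.hq.symm
    have hh1 : h1 ∈ U \ (Y ∪ Nb G Y) := by rw [a4]; exact Or.inl rfl
    have hyY : y ∉ Y := by
      intro hyY
      exact hh1.2 (Or.inr ⟨fun h5 => hh1.2 (Or.inl h5), y, hyY, a2.hq.symm⟩)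
    have hyN : y ∉ Nb G Y := fun h5 => a2.ne (hN y h5).symm
    have hyR : y ∈ U \ (Y ∪ Nb G Y) := ⟨hyU, by rintro (h5 | h5); exacts [hyY h5, hyN h5]⟩
    rw [a4] at hyR
    rcases hyR with h5 | h5
    · exact a2.hq.ne h5.symm
    · exact a3.hq.ne (Set.mem_singleton_iff.1 h5).symm
  · -- everything is balanced without `p`
    refine idx_one t.pre p (fun v => if v = x then 0 else 1) ?_
    intro u v hu hv huv
    have hcase : u ∈ Y ∨ v ∈ Y := by
      by_contra h1
      push Not at h1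
      have hR : ∀ w, w ≠ p → w ∈ U → w ∉ Y → w ∈ U \ (Y ∪ Nb G Y) := by
        intro w h2 h3 h4
        refine ⟨h3, ?_⟩
        rintro (h5 | h5)
        · exact h4 h5
        · exact h2 (hN w h5)
      have h2 := hR u hu (t.pre.edge_mem u v huv) h1.1
      have h3 := hR v hv (t.pre.edge_mem v u huv.symm) h1.2
      have h4 : (U \ (Y ∪ Nb G Y)).ncard ≤ 1 := by omega
      exact huv.ne ((Set.ncard_le_one (Set.toFinite _)).1 h4 u h2 v h3)
    have key : ∀ a b, a ∈ Y → b ≠ p → G.Adj a b → (a = x ∧ b ≠ x) ∨ (a ≠ x ∧ b = x) := by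
      intro a b ha hb hab
      rcases ha with rfl | rfl | ha
      · exact Or.inl ⟨rfl, hab.ne.symm⟩
      · rcases t.hd.adj.1 hab with h1 | h1
        · exact absurd h1 hb
        · exact Or.inr ⟨t.dx, h1⟩
      · rw [Set.mem_singleton_iff] at ha
        subst ha
        rcases t.hd'.adj.1 hab with h1 | h1
        · exact absurd h1 hb
        · exact Or.inr ⟨t.dx', h1⟩
    show (if u = x then (0 : ZMod 2) else 1) ≠ (if v = x then 0 else 1)
    rcases hcase with h1 | h1
    · rcases key u v h1 hv huv with ⟨h2, h3⟩ | ⟨h2, h3⟩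
      · rw [if_pos h2, if_neg h3]; decide
      · rw [if_neg h2, if_pos h3]; decide
    · rcases key v u h1 hu huv.symm with ⟨h2, h3⟩ | ⟨h2, h3⟩
      · rw [if_pos h2, if_neg h3]; decide
      · rw [if_neg h2, if_pos h3]; decide

/-- `p` has a further neighbour. -/
lemma Tw.third_p [Finite V] (t : Tw G U p x d d') : ∃ y, G.Adj p y ∧ y ≠ d ∧ y ≠ d' := by
  classical
  by_contra hcon
  push Not at hcon
  have hpn : ∀ y, G.Adj p y → y = d ∨ y = d' := by
    intro y hy
    by_cases h1 : y = d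
    · exact Or.inl h1
    · exact Or.inr (hcon y hy h1)
  set Y : Set V := {p, d, d'} with hY
  have hYU : Y ⊆ U := by
    rintro v (rfl | rfl | hv)
    · exact t.pre.pU
    · exact t.dU
    · rw [Set.mem_singleton_iff] at hv; rw [hv]; exact t.dU'
  have hY3 : Y.ncard = 3 := three_set t.dp.symm t.dp'.symm t.ne
  have hN : ∀ v ∈ Nb G Y, v = x := by
    rintro v ⟨hv, u, hu, huv⟩
    rcases hu with rfl | rfl | hu
    · rcases hpn v huv with h1 | h1
      · exact absurd (Or.inr (Or.inl h1)) hv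
      · exact absurd (Or.inr (Or.inr h1)) hv
    · rcases t.hd.adj.1 huv with h1 | h1
      · exact absurd (Or.inl h1) hv
      · exact h1
    · rw [Set.mem_singleton_iff] at hu
      subst hu
      rcases t.hd'.adj.1 huv with h1 | h1
      · exact absurd (Or.inl h1) hv
      · exact h1
  have hN1 : (Nb G Y).ncard ≤ 1 := by
    have h1 : Nb G Y ⊆ {x} := fun v hv => hN v hv
    have h2 := Set.ncard_le_ncard h1 (Set.toFinite _)
    rwa [Set.ncard_singleton] at h2
  by_cases hr : 2 ≤ (U \ (Y ∪ Nb G Y)).ncard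
  · obtain ⟨h1, h2, y, -, -, -, -, a5⟩ := conn3 t.pre hYU hY3.ge (by omega) hr
    exact a5 (Or.inl rfl)
  · refine idx_one t.pre x (fun v => if v = p then 0 else 1) ?_
    intro u v hu hv huv
    have hcase : u ∈ Y ∨ v ∈ Y := by
      by_contra h1
      push Not at h1
      have hR : ∀ w, w ≠ x → w ∈ U → w ∉ Y → w ∈ U \ (Y ∪ Nb G Y) := by
        intro w h2 h3 h4
        refine ⟨h3, ?_⟩
        rintro (h5 | h5)
        · exact h4 h5
        · exact h2 (hN w h5)
      have h2 := hR u hu (t.pre.edge_mem u v huv) h1.1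
      have h3 := hR v hv (t.pre.edge_mem v u huv.symm) h1.2
      have h4 : (U \ (Y ∪ Nb G Y)).ncard ≤ 1 := by omega
      exact huv.ne ((Set.ncard_le_one (Set.toFinite _)).1 h4 u h2 v h3)
    have key : ∀ a b, a ∈ Y → b ≠ x → G.Adj a b → (a = p ∧ b ≠ p) ∨ (a ≠ p ∧ b = p) := by
      intro a b ha hb hab
      rcases ha with rfl | rfl | ha
      · exact Or.inl ⟨rfl, hab.ne.symm⟩
      · rcases t.hd.adj.1 hab with h1 | h1
        · exact Or.inr ⟨t.dp, h1⟩
        · exact absurd h1 hb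
      · rw [Set.mem_singleton_iff] at ha
        subst ha
        rcases t.hd'.adj.1 hab with h1 | h1
        · exact Or.inr ⟨t.dp', h1⟩
        · exact absurd h1 hb
    show (if u = p then (0 : ZMod 2) else 1) ≠ (if v = p then 0 else 1)
    rcases hcase with h1 | h1
    · rcases key u v h1 hv huv with ⟨h2, h3⟩ | ⟨h2, h3⟩
      · rw [if_pos h2, if_neg h3]; decide
      · rw [if_neg h2, if_pos h3]; decide
    · rcases key v u h1 hu huv.symm with ⟨h2, h3⟩ | ⟨h2, h3⟩
      · rw [if_pos h2, if_neg h3]; decide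
      · rw [if_neg h2, if_pos h3]; decide

/-- The two ends of parallel handles `d`, `d'` are not separated by `d, d', n`. -/
lemma Tw.no_sep [Finite V] (t : Tw G U p x d d') {n : V} {P X : Set V} (hpP : p ∈ P)
    (hxX : x ∈ X) (hPU : P ⊆ U) (hXU : X ⊆ U) (hPX : Disjoint P X)
    (hdP : d ∉ P) (hdX : d ∉ X) (hdP' : d' ∉ P) (hdX' : d' ∉ X) (hnP : n ∉ P) (hnX : n ∉ X)
    (hcov : ∀ v ∈ U, v ∈ P ∨ v ∈ X ∨ v = d ∨ v = d' ∨ v = n)
    (hno : ∀ a ∈ P, ∀ b ∈ X, ¬ G.Adj a b) : False := by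
  classical
  have hnp : n ≠ p := fun h => hnP (h ▸ hpP)
  have hnx : n ≠ x := fun h => hnX (h ▸ hxX)
  -- the side of `p`
  set Y : Set V := insert d (insert d' P) with hY
  have hYU : Y ⊆ U := by
    rintro v (rfl | rfl | hv)
    · exact t.dU
    · exact t.dU'
    · exact hPU hv
  have hYN : ∀ v ∈ Nb G Y, v = x ∨ v = n := by
    rintro v ⟨hv, u, hu, huv⟩
    have hvd : v ≠ d := fun h => hv (Or.inl h)
    have hvd' : v ≠ d' := fun h => hv (Or.inr (Or.inl h))
    have hvP : v ∉ P := fun h => hv (Or.inr (Or.inr h))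
    rcases hu with rfl | rfl | hu
    · rcases t.hd.adj.1 huv with h1 | h1
      · exact absurd (h1 ▸ hpP) hvP
      · exact Or.inl h1
    · rcases t.hd'.adj.1 huv with h1 | h1
      · exact absurd (h1 ▸ hpP) hvP
      · exact Or.inl h1
    · rcases hcov v (t.pre.edge_mem v u huv.symm) with h1 | h1 | h1 | h1 | h1
      · exact absurd h1 hvP
      · exact absurd huv (hno u hu v h1)
      · exact absurd h1 hvd
      · exact absurd h1 hvd'
      · exact Or.inr h1
  have hY3 : 3 ≤ Y.ncard := by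
    have h1 : ({d, d', p} : Set V) ⊆ Y := by
      rintro v (rfl | rfl | hv)
      · exact Or.inl rfl
      · exact Or.inr (Or.inl rfl)
      · rw [Set.mem_singleton_iff] at hv; rw [hv]; exact Or.inr (Or.inr hpP)
    have h2 := Set.ncard_le_ncard h1 (Set.toFinite _)
    rwa [three_set t.ne t.dp t.dp'] at h2
  have hYN2 : (Nb G Y).ncard ≤ 2 := ncard_le_two_of hYN
  have hrY : (U \ (Y ∪ Nb G Y)).ncard ≤ 1 := by
    by_contra h1
    obtain ⟨-, -, -, -, -, -, -, a5⟩ := conn3 t.pre hYU hY3 hYN2 (by omega)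
    exact a5 (Or.inr (Or.inr hpP))
  -- at most one more vertex in `X`
  have hX1 : ∀ u ∈ X, ∀ v ∈ X, u ≠ x → v ≠ x → u = v := by
    intro u hu v hv hux hvx
    have key : ∀ w ∈ X, w ≠ x → w ∈ U \ (Y ∪ Nb G Y) := by
      intro w hw hwx
      refine ⟨hXU hw, ?_⟩
      rintro ((h1 | h1 | h1) | h1)
      · exact hdX (h1 ▸ hw)
      · exact hdX' (h1 ▸ hw)
      · exact Set.disjoint_left.1 hPX h1 hw
      · rcases hYN w h1 with h2 | h2
        · exact hwx h2
        · exact hnX (h2 ▸ hw)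
    exact (Set.ncard_le_one (Set.toFinite _)).1 hrY u (key u hu hux) v (key v hv hvx)
  -- the side of `x`
  set Z : Set V := insert d (insert d' X) with hZ
  have hZU : Z ⊆ U := by
    rintro v (rfl | rfl | hv)
    · exact t.dU
    · exact t.dU'
    · exact hXU hv
  have hZN : ∀ v ∈ Nb G Z, v = p ∨ v = n := by
    rintro v ⟨hv, u, hu, huv⟩
    have hvd : v ≠ d := fun h => hv (Or.inl h)
    have hvd' : v ≠ d' := fun h => hv (Or.inr (Or.inl h))
    have hvX : v ∉ X := fun h => hv (Or.inr (Or.inr h))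
    rcases hu with rfl | rfl | hu
    · rcases t.hd.adj.1 huv with h1 | h1
      · exact Or.inl h1
      · exact absurd (h1 ▸ hxX) hvX
    · rcases t.hd'.adj.1 huv with h1 | h1
      · exact Or.inl h1
      · exact absurd (h1 ▸ hxX) hvX
    · rcases hcov v (t.pre.edge_mem v u huv.symm) with h1 | h1 | h1 | h1 | h1
      · exact absurd huv.symm (hno v h1 u hu)
      · exact absurd h1 hvX
      · exact absurd h1 hvd
      · exact absurd h1 hvd'
      · exact Or.inr h1
  have hZ3 : 3 ≤ Z.ncard := by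
    have h1 : ({d, d', x} : Set V) ⊆ Z := by
      rintro v (rfl | rfl | hv)
      · exact Or.inl rfl
      · exact Or.inr (Or.inl rfl)
      · rw [Set.mem_singleton_iff] at hv; rw [hv]; exact Or.inr (Or.inr hxX)
    have h2 := Set.ncard_le_ncard h1 (Set.toFinite _)
    rwa [three_set t.ne t.dx t.dx'] at h2
  have hZN2 : (Nb G Z).ncard ≤ 2 := ncard_le_two_of hZN
  -- no edge inside `P` avoids `p`
  have hPR : ∀ w ∈ P, w ≠ p → w ∈ U \ (Z ∪ Nb G Z) := by
    intro w hw hwp
    refine ⟨hPU hw, ?_⟩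
    rintro ((h1 | h1 | h1) | h1)
    · exact hdP (h1 ▸ hw)
    · exact hdP' (h1 ▸ hw)
    · exact Set.disjoint_left.1 hPX hw h1
    · rcases hZN w h1 with h2 | h2
      · exact hwp h2
      · exact hnP (h2 ▸ hw)
  have hP1 : ∀ u ∈ P, ∀ v ∈ P, u ≠ p → v ≠ p → ¬ G.Adj u v := by
    intro u hu v hv hup hvp huv
    have h1 := hPR u hu hup
    have h2 := hPR v hv hvp
    by_cases hr : 2 ≤ (U \ (Z ∪ Nb G Z)).ncard
    · obtain ⟨k1, k2, y, a1, a2, a3, a4, -⟩ := conn3 t.pre hZU hZ3 hZN2 hr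
      rw [a4] at h1 h2
      have hyU : y ∈ U := t.pre.edge_mem y k1 a2.hq.symm
      have hk1 : k1 ∈ U \ (Z ∪ Nb G Z) := by rw [a4]; exact Or.inl rfl
      have hk2 : k2 ∈ U \ (Z ∪ Nb G Z) := by rw [a4]; exact Or.inr rfl
      have key : ∀ a b, (a = k1 ∨ a = k2) → (b = k1 ∨ b = k2) → G.Adj a b → b = y := by
        intro a b ha hb hab
        have hbp : b ≠ p := by
          rcases hb with h5 | h5
          · rw [h5]; exact a2.hp.ne
          · rw [h5]; exact a3.hp.ne
        rcases ha with rfl | rfl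
        · exact (a2.adj.1 hab).resolve_left hbp
        · exact (a3.adj.1 hab).resolve_left hbp
      have h5 := key u v h1 h2 huv
      have h6 := key v u h2 h1 huv.symm
      exact huv.ne (h6.trans h5.symm)
    · have h3 : (U \ (Z ∪ Nb G Z)).ncard ≤ 1 := by omega
      exact huv.ne ((Set.ncard_le_one (Set.toFinite _)).1 h3 u h1 v h2)
  -- two-colouring of `G - n`
  refine t.pre.idx n n hnp hnp (fun v => if v = p ∨ v = x then 0 else 1) ?_
  intro u v hu _ hv _ huv
  have key : ∀ a b, a ≠ n → b ≠ n → G.Adj a b → ¬ (a = p ∨ a = x) → (b = p ∨ b = x) := by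
    intro a b ha hb hab hna
    push Not at hna
    have haU := t.pre.edge_mem a b hab
    have hbU := t.pre.edge_mem b a hab.symm
    rcases hcov a haU with h1 | h1 | h1 | h1 | h1
    · -- `a ∈ P`
      rcases hcov b hbU with h2 | h2 | h2 | h2 | h2
      · by_contra h3
        push Not at h3
        exact hP1 a h1 b h2 hna.1 h3.1 hab
      · exact absurd hab (hno a h1 b h2)
      · exfalso
        subst h2
        rcases t.hd.adj.1 hab.symm with h3 | h3
        · exact hna.1 h3
        · exact hna.2 h3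
      · exfalso
        subst h2
        rcases t.hd'.adj.1 hab.symm with h3 | h3
        · exact hna.1 h3
        · exact hna.2 h3
      · exact absurd h2 hb
    · rcases hcov b hbU with h2 | h2 | h2 | h2 | h2
      · exact absurd hab.symm (hno b h2 a h1)
      · by_contra h3
        push Not at h3
        exact hab.ne (hX1 a h1 b h2 hna.2 h3.2)
      · exfalso
        subst h2
        rcases t.hd.adj.1 hab.symm with h3 | h3
        · exact hna.1 h3
        · exact hna.2 h3
      · exfalso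
        subst h2
        rcases t.hd'.adj.1 hab.symm with h3 | h3
        · exact hna.1 h3
        · exact hna.2 h3
      · exact absurd h2 hb
    · subst h1
      exact t.hd.adj.1 hab
    · subst h1
      exact t.hd'.adj.1 hab
    · exact absurd h1 ha
  have hpx : ¬ G.Adj p x := hno p hpP x hxX
  show (if u = p ∨ u = x then (0 : ZMod 2) else 1) ≠ (if v = p ∨ v = x then 0 else 1)
  by_cases h1 : u = p ∨ u = x
  · have h2 : ¬ (v = p ∨ v = x) := by
      intro h2
      rcases h1 with rfl | rfl <;> rcases h2 with rfl | rfl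
      · exact huv.ne rfl
      · exact hpx huv
      · exact hpx huv.symm
      · exact huv.ne rfl
    rw [if_pos h1, if_neg h2]; decide
  · have h2 := key u v hu hv huv h1
    rw [if_neg h1, if_pos h2]; decide

end Pool.Agent.Helper51.W2
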