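import Pool.Agent.Helper51.W2.Dup1

/-!
# Deletion of parallel handles: one step, induction
-/

set_option autoImplicit false

namespace Pool.Agent.Helper51.W2

open SimpleGraph Pool.Agent.Helper57.TOK Pool.Agent.Helper57.TD Pool.Agent.Helper57.TOP
  Pool.Agent.Helper82.TK Pool.Agent.Helper20.HD

variable {V : Type*} {G : SimpleGraph V} {U : Set V} {p x d d' : V}

lemma del_adj {u v : V} : (delS G {d}).Adj u v ↔ G.Adj u v ∧ u ≠ d ∧ v ≠ d := Iff.rfl

lemma del_nb {y : V} (hy : y ≠ d) : (delS G {d}).neighborSet y = G.neighborSet y \ {d} := by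
  ext v
  constructor
  · rintro ⟨h1, -, h3⟩
    exact ⟨h1, h3⟩
  · rintro ⟨h1, h3⟩
    exact ⟨h1, hy, h3⟩

lemma hand_del {z y : V} (hz : Hand G z p y) (h1 : z ≠ d) (h2 : p ≠ d) (h3 : y ≠ d) :
    Hand (delS G {d}) z p y := by
  refine ⟨hz.ne, ?_⟩
  rw [del_nb h1, hz.nb]
  ext v
  constructor
  · exact fun h => h.1
  · rintro (rfl | hv)
    · exact ⟨Or.inl rfl, h2⟩
    · rw [Set.mem_singleton_iff] at hv
      subst hv
      exact ⟨Or.inr rfl, h3⟩

lemma hand_of_del {z y : V} (hz : Hand (delS G {d}) z p y) (h1 : ¬ G.Adj z d) :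
    Hand G z p y := by
  have hzd : z ≠ d := hz.hp.2.1
  refine ⟨hz.ne, ?_⟩
  rw [← hz.nb, del_nb hzd]
  ext v
  constructor
  · intro hv
    refine ⟨hv, ?_⟩
    intro h2
    rw [Set.mem_singleton_iff] at h2
    exact h1 (h2 ▸ hv)
  · exact fun h => h.1

/-- `p` and `x` are not separated by a small neighbourhood in `G - d`. -/
lemma Tw.sep_mem [Finite V] (t : Tw G U p x d d') {Y : Set V} (hY : Y ⊆ U \ {d})
    (hN : (Nb (delS G {d}) Y).ncard ≤ 2) :
    (p ∈ Y → x ∈ Y ∨ x ∈ Nb (delS G {d}) Y) ∧ (x ∈ Y → p ∈ Y ∨ p ∈ Nb (delS G {d}) Y) := by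
  classical
  set G' := delS G {d} with hG'
  have hdY : d ∉ Y := fun h => (hY h).2 rfl
  have ap : G'.Adj d' p := ⟨t.hd'.hp, t.ne.symm, t.dp.symm⟩
  have ax : G'.Adj d' x := ⟨t.hd'.hq, t.ne.symm, t.dx.symm⟩
  have hdN : d ∉ Nb G' Y := by
    rintro ⟨-, u, -, hu⟩
    exact hu.2.2 rfl
  set R : Set V := (U \ {d}) \ (Y ∪ Nb G' Y) with hR
  have hno : ∀ a ∈ Y, ∀ b ∈ R, ¬ G.Adj a b := by
    intro a ha b hb hab
    exact hb.2 (Or.inr ⟨fun h => hb.2 (Or.inl h), a, ha, hab, (hY ha).2, hb.1.2⟩)
  have getn : d' ∈ Nb G' Y → ∃ n, n ∈ Nb G' Y ∧ ∀ v ∈ Nb G' Y, v = d' ∨ v = n := by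
    intro hd'
    by_cases h1 : ∃ n ∈ Nb G' Y, n ≠ d'
    · obtain ⟨n, hn, hnd⟩ := h1
      refine ⟨n, hn, ?_⟩
      have h2 : ({d', n} : Set V) ⊆ Nb G' Y := by
        rintro v (rfl | hv)
        · exact hd'
        · rw [Set.mem_singleton_iff] at hv; rw [hv]; exact hn
      have h3 : ({d', n} : Set V) = Nb G' Y := by
        refine Set.eq_of_subset_of_ncard_le h2 ?_ (Set.toFinite _)
        rw [Set.ncard_pair (Ne.symm hnd)]
        exact hN
      intro v hv
      rw [← h3] at hv
      exact hv
    · push Not at h1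
      exact ⟨d', hd', fun v hv => Or.inl (h1 v hv)⟩
  have hcov : ∀ {n : V}, (∀ v ∈ Nb G' Y, v = d' ∨ v = n) → ∀ v ∈ U,
      v ∈ Y ∨ v ∈ R ∨ v = d ∨ v = d' ∨ v = n := by
    intro n hn v hv
    by_cases h1 : v = d
    · tauto
    by_cases h2 : v ∈ Y
    · tauto
    by_cases h3 : v ∈ Nb G' Y
    · rcases hn v h3 with h4 | h4 <;> tauto
    · right; left
      exact ⟨⟨hv, h1⟩, by rintro (h4 | h4); exacts [h2 h4, h3 h4]⟩
  constructor
  · intro hp
    by_contra hcon
    push Not at hcon
    have hxR : x ∈ R := ⟨⟨t.xU, t.dx.symm⟩, by rintro (h | h); exacts [hcon.1 h, hcon.2 h]⟩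
    have hd'Y : d' ∉ Y := fun h => hcon.2 ⟨hcon.1, d', h, ax⟩
    have hd'N : d' ∈ Nb G' Y := ⟨hd'Y, p, hp, ap.symm⟩
    obtain ⟨n, hn, hall⟩ := getn hd'N
    refine t.no_sep (n := n) (P := Y) (X := R) hp hxR (fun v hv => (hY hv).1)
      (fun v hv => hv.1.1) (Set.disjoint_left.2 (fun v hv h => h.2 (Or.inl hv))) hdY
      (fun h => h.1.2 rfl) hd'Y (fun h => h.2 (Or.inr hd'N)) hn.1 (fun h => h.2 (Or.inr hn))
      (fun v hv => ?_) hno
    exact hcov hall v hv
  · intro hx
    by_contra hcon
    push Not at hcon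
    have hpR : p ∈ R := ⟨⟨t.pre.pU, t.dp.symm⟩, by rintro (h | h); exacts [hcon.1 h, hcon.2 h]⟩
    have hd'Y : d' ∉ Y := fun h => hcon.2 ⟨hcon.1, d', h, ap⟩
    have hd'N : d' ∈ Nb G' Y := ⟨hd'Y, x, hx, ax.symm⟩
    obtain ⟨n, hn, hall⟩ := getn hd'N
    refine t.no_sep (n := n) (P := R) (X := Y) hpR hx (fun v hv => hv.1.1)
      (fun v hv => (hY hv).1) (Set.disjoint_left.2 (fun v hv h => hv.2 (Or.inl h)))
      (fun h => h.1.2 rfl) hdY (fun h => h.2 (Or.inr hd'N)) hd'Y (fun h => h.2 (Or.inr hn)) hn.1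
      (fun v hv => ?_) (fun a ha b hb hab => hno b hb a ha hab.symm)
    rcases hcov hall v hv with h | h | h | h | h <;> tauto

/-- Connectivity up to parallel handles is preserved. -/
lemma Tw.conn [Finite V] (t : Tw G U p x d d') {Y : Set V} (hY : Y ⊆ U \ {d})
    (hY2 : 2 ≤ Y.ncard) (hN : (Nb (delS G {d}) Y).ncard ≤ 2)
    (hr : 2 ≤ ((U \ {d}) \ (Y ∪ Nb (delS G {d}) Y)).ncard) :
    ∃ h1 h2 y, h1 ≠ h2 ∧ Hand (delS G {d}) h1 p y ∧ Hand (delS G {d}) h2 p y ∧
      (Y = {h1, h2} ∨ (U \ {d}) \ (Y ∪ Nb (delS G {d}) Y) = {h1, h2}) := by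
  classical
  obtain ⟨s1, s2⟩ := t.sep_mem hY hN
  set G' := delS G {d} with hG'
  have hdY : d ∉ Y := fun h => (hY h).2 rfl
  have hdN : d ∉ Nb G' Y := by
    rintro ⟨-, u, -, hu⟩
    exact hu.2.2 rfl
  set R : Set V := (U \ {d}) \ (Y ∪ Nb G' Y) with hR
  by_cases hc : p ∈ Y ∨ x ∈ Y
  · have hpc : p ∈ Y ∨ p ∈ Nb G' Y := by
      rcases hc with h | h
      · exact Or.inl h
      · exact s2 h
    have hxc : x ∈ Y ∨ x ∈ Nb G' Y := by
      rcases hc with h | h
      · exact s1 h
      · exact Or.inl h
    have hNe : Nb G (insert d Y) = Nb G' Y := by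
      ext v
      constructor
      · rintro ⟨hv, u, hu, huv⟩
        have hvd : v ≠ d := fun h => hv (Or.inl h)
        have hvY : v ∉ Y := fun h => hv (Or.inr h)
        rcases hu with rfl | hu
        · rcases t.hd.adj.1 huv with h1 | h1
          · rw [h1] at hvY ⊢; exact hpc.resolve_left hvY
          · rw [h1] at hvY ⊢; exact hxc.resolve_left hvY
        · exact ⟨hvY, u, hu, huv, (hY hu).2, hvd⟩
      · rintro ⟨hv, u, hu, huv⟩
        refine ⟨?_, u, Or.inr hu, huv.1⟩
        rintro (h | h)
        · exact huv.2.2 h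
        · exact hv h
    have hRe : U \ (insert d Y ∪ Nb G (insert d Y)) = R := by
      rw [hNe]
      ext v
      constructor
      · rintro ⟨h1, h2⟩
        exact ⟨⟨h1, fun h => h2 (Or.inl (Or.inl h))⟩, by
          rintro (h | h); exacts [h2 (Or.inl (Or.inr h)), h2 (Or.inr h)]⟩
      · rintro ⟨⟨h1, h2⟩, h3⟩
        refine ⟨h1, ?_⟩
        rintro ((h | h) | h)
        · exact h2 h
        · exact h3 (Or.inl h)
        · exact h3 (Or.inr h)
    have h3 : 3 ≤ (insert d Y).ncard := by
      rw [Set.ncard_insert_of_notMem hdY (Set.toFinite _)]; omega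
    obtain ⟨k1, k2, y, a1, a2, a3, a4, -⟩ := conn3 t.pre (by
      rintro v (rfl | hv)
      · exact t.dU
      · exact (hY hv).1) h3 (hNe ▸ hN) (by rw [hRe]; exact hr)
    rw [hRe] at a4
    have hk1 : k1 ∈ R := by rw [a4]; exact Or.inl rfl
    have hk2 : k2 ∈ R := by rw [a4]; exact Or.inr rfl
    have hyd : ∀ k ∈ R, Hand G k p y → y ≠ d := by
      rintro k hk hky rfl
      rcases t.hd.adj.1 hky.hq.symm with h5 | h5
      · exact hky.hp.ne h5
      · rw [h5] at hk
        exact hk.2 hxc
    exact ⟨k1, k2, y, a1, hand_del a2 hk1.1.2 t.dp.symm (hyd k1 hk1 a2),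
      hand_del a3 hk2.1.2 t.dp.symm (hyd k2 hk2 a3), Or.inr a4⟩
  · push Not at hc
    have hNe : Nb G Y = Nb G' Y := by
      ext v
      constructor
      · rintro ⟨hv, u, hu, huv⟩
        refine ⟨hv, u, hu, huv, (hY hu).2, ?_⟩
        rintro rfl
        rcases t.hd.adj.1 huv.symm with h1 | h1
        · exact hc.1 (h1 ▸ hu)
        · exact hc.2 (h1 ▸ hu)
      · rintro ⟨hv, u, hu, huv⟩
        exact ⟨hv, u, hu, huv.1⟩
    have hRs : insert d R ⊆ U \ (Y ∪ Nb G Y) := by
      rw [hNe]
      rintro v (rfl | ⟨⟨h1, -⟩, h3⟩)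
      · exact ⟨t.dU, by rintro (h | h); exacts [hdY h, hdN h]⟩
      · exact ⟨h1, h3⟩
    have hR3 : 3 ≤ (U \ (Y ∪ Nb G Y)).ncard := by
      have h1 := Set.ncard_le_ncard hRs (Set.toFinite _)
      rw [Set.ncard_insert_of_notMem (fun h => h.1.2 rfl) (Set.toFinite _)] at h1
      omega
    obtain ⟨k1, k2, y, a1, a2, a3, a4 | a4⟩ := t.pre.conn Y (fun v hv => (hY hv).1) hY2
      (hNe ▸ hN) (by omega)
    · have hk1 : k1 ∈ Y := by rw [a4]; exact Or.inl rfl
      have hk2 : k2 ∈ Y := by rw [a4]; exact Or.inr rfl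
      have hyd : ∀ k ∈ Y, Hand G k p y → y ≠ d := by
        rintro k hk hky rfl
        rcases t.hd.adj.1 hky.hq.symm with h5 | h5
        · exact hky.hp.ne h5
        · exact hc.2 (h5 ▸ hk)
      exact ⟨k1, k2, y, a1, hand_del a2 (hY hk1).2 t.dp.symm (hyd k1 hk1 a2),
        hand_del a3 (hY hk2).2 t.dp.symm (hyd k2 hk2 a3), Or.inl a4⟩
    · rw [a4, Set.ncard_pair a1] at hR3
      omega

/-- One step. -/
theorem Tw.step [Finite V] (t : Tw G U p x d d') : PreD (delS G {d}) (U \ {d}) p where
  pU := ⟨t.pre.pU, t.dp.symm⟩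
  edge_mem := fun u v huv => ⟨t.pre.edge_mem u v huv.1, huv.2.1⟩
  deg2 := by
    classical
    rintro y ⟨hyU, hyd⟩
    have hyd' : y ≠ d := hyd
    by_cases hyp : y = p
    · subst hyp
      obtain ⟨z, hz, hzd, hzd'⟩ := t.third_p
      have h1 : ({d', z} : Set V) ⊆ (delS G {d}).neighborSet y := by
        rintro v (rfl | hv)
        · exact ⟨t.hd'.hp.symm, hyd', t.ne.symm⟩
        · rw [Set.mem_singleton_iff] at hv; rw [hv]; exact ⟨hz, hyd', hzd⟩
      have h2 := Set.ncard_le_ncard h1 (Set.toFinite _)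
      rwa [Set.ncard_pair (Ne.symm hzd')] at h2
    by_cases hyx : y = x
    · subst hyx
      obtain ⟨z, hz, -, hzd, hzd'⟩ := t.third
      have h1 : ({d', z} : Set V) ⊆ (delS G {d}).neighborSet y := by
        rintro v (rfl | hv)
        · exact ⟨t.hd'.hq.symm, hyd', t.ne.symm⟩
        · rw [Set.mem_singleton_iff] at hv; rw [hv]; exact ⟨hz, hyd', hzd⟩
      have h2 := Set.ncard_le_ncard h1 (Set.toFinite _)
      rwa [Set.ncard_pair (Ne.symm hzd')] at h2
    · have h1 : (delS G {d}).neighborSet y = G.neighborSet y := by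
        rw [del_nb hyd']
        ext v
        constructor
        · exact fun h => h.1
        · intro hv
          refine ⟨hv, ?_⟩
          intro h2
          rw [Set.mem_singleton_iff] at h2
          subst h2
          rcases t.hd.adj.1 (SimpleGraph.Adj.symm hv) with h3 | h3
          · exact hyp h3
          · exact hyx h3
      rw [h1]
      exact t.pre.deg2 y hyU
  idx := by
    classical
    intro z1 z2 h1 h2 κ hκ
    by_cases hc : d' = z1 ∨ d' = z2
    · -- remove `x` instead of `d'`
      set w1 : V := if d' = z1 then x else z1 with hw1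
      set w2 : V := if d' = z2 then x else z2 with hw2
      have hw1p : w1 ≠ p := by rw [hw1]; split_ifs; exacts [t.px.symm, h1]
      have hw2p : w2 ≠ p := by rw [hw2]; split_ifs; exacts [t.px.symm, h2]
      have hxw : w1 = x ∨ w2 = x := by
        rcases hc with h | h
        · left; rw [hw1, if_pos h]
        · right; rw [hw2, if_pos h]
      refine t.pre.idx w1 w2 hw1p hw2p
        (fun v => if v = d ∨ v = d' then κ p + 1 else κ v) ?_
      have hpd : ¬ (p = d ∨ p = d') := by
        rintro (h | h)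
        · exact t.dp h.symm
        · exact t.dp' h.symm
      have one : ∀ a : ZMod 2, a + 1 ≠ a := by decide
      have key : ∀ u v, v ≠ w1 → v ≠ w2 → G.Adj u v → (u = d ∨ u = d') → v = p := by
        intro u v hv1 hv2 huv hu
        have hvx : v ≠ x := by
          rintro rfl
          rcases hxw with h | h
          · exact hv1 h.symm
          · exact hv2 h.symm
        rcases hu with rfl | rfl
        · exact (t.hd.adj.1 huv).resolve_right hvx
        · exact (t.hd'.adj.1 huv).resolve_right hvx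
      have hz : ∀ u, u ≠ w1 → u ≠ w2 → ¬ (u = d ∨ u = d') → u ≠ z1 ∧ u ≠ z2 := by
        intro u hu1 hu2 hu
        constructor
        · by_cases h : d' = z1
          · exact fun h3 => hu (Or.inr (h3.trans h.symm))
          · rw [hw1, if_neg h] at hu1; exact hu1
        · by_cases h : d' = z2
          · exact fun h3 => hu (Or.inr (h3.trans h.symm))
          · rw [hw2, if_neg h] at hu2; exact hu2
      intro u v hu1 hu2 hv1 hv2 huv
      show (if u = d ∨ u = d' then κ p + 1 else κ u) ≠ (if v = d ∨ v = d' then κ p + 1 else κ v)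
      by_cases hu : u = d ∨ u = d'
      · have hv := key u v hv1 hv2 huv hu
        rw [if_pos hu, hv, if_neg hpd]
        exact one _
      · by_cases hv : v = d ∨ v = d'
        · have hu' := key v u hu1 hu2 huv.symm hv
          rw [if_pos hv, hu', if_neg hpd]
          exact (one _).symm
        · rw [if_neg hu, if_neg hv]
          obtain ⟨a1, a2⟩ := hz u hu1 hu2 hu
          obtain ⟨b1, b2⟩ := hz v hv1 hv2 hv
          exact hκ u v a1 a2 b1 b2 ⟨huv, fun h => hu (Or.inl h), fun h => hv (Or.inl h)⟩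
    · push Not at hc
      refine t.pre.idx z1 z2 h1 h2 (fun v => if v = d then κ d' else κ v) ?_
      have key : ∀ u v, v ≠ z1 → v ≠ z2 → G.Adj u v → u = d → κ d' ≠ κ v ∧ v ≠ d := by
        intro u v hv1 hv2 huv hu
        subst hu
        refine ⟨?_, huv.ne.symm⟩
        rcases t.hd.adj.1 huv with h | h
        · rw [h]
          exact hκ d' p hc.1 hc.2 h1.symm h2.symm ⟨t.hd'.hp, t.ne.symm, t.dp.symm⟩
        · rw [h] at hv1 hv2 ⊢
          exact hκ d' x hc.1 hc.2 hv1 hv2 ⟨t.hd'.hq, t.ne.symm, t.dx.symm⟩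
      intro u v hu1 hu2 hv1 hv2 huv
      show (if u = d then κ d' else κ u) ≠ (if v = d then κ d' else κ v)
      by_cases hu : u = d
      · obtain ⟨a1, a2⟩ := key u v hv1 hv2 huv hu
        rw [if_pos hu, if_neg a2]; exact a1
      · by_cases hv : v = d
        · obtain ⟨a1, a2⟩ := key v u hu1 hu2 huv.symm hv
          rw [if_pos hv, if_neg hu]; exact a1.symm
        · rw [if_neg hu, if_neg hv]
          exact hκ u v hu1 hu2 hv1 hv2 ⟨huv, hu, hv⟩
  idxp := by
    classical
    intro κ hκ
    refine t.pre.idxp (fun v => if v = d then κ x + 1 else κ v) ?_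
    have one : ∀ a : ZMod 2, a + 1 ≠ a := by decide
    have key : ∀ u v, v ≠ p → G.Adj u v → u = d → v = x := by
      intro u v hv huv hu
      subst hu
      exact (t.hd.adj.1 huv).resolve_left hv
    intro u v hu _ hv _ huv
    show (if u = d then κ x + 1 else κ u) ≠ (if v = d then κ x + 1 else κ v)
    by_cases hud : u = d
    · have h := key u v hv huv hud
      rw [if_pos hud, h, if_neg t.dx.symm]; exact one _
    · by_cases hvd : v = d
      · have h := key v u hu huv.symm hvd
        rw [if_pos hvd, h, if_neg t.dx.symm]; exact (one _).symm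
      · rw [if_neg hud, if_neg hvd]
        exact hκ u v hu hu hv hv ⟨huv, hud, hvd⟩
  conn := fun _ hY hY2 hN hr => t.conn hY hY2 hN hr

lemma Tw.edges [Finite V] (t : Tw G U p x d d') :
    (delS G {d}).edgeSet.ncard + 2 = G.edgeSet.ncard := by
  classical
  have h1 : G.edgeSet = (delS G {d}).edgeSet ∪ {s(d, p), s(d, x)} := by
    ext e
    induction e using Sym2.ind with
    | _ u v =>
      constructor
      · intro he
        have he' : G.Adj u v := he
        by_cases hu : u = d
        · right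
          subst hu
          rcases t.hd.adj.1 he' with h | h
          · left; rw [h]
          · right; rw [h]; rfl
        · by_cases hv : v = d
          · right
            subst hv
            rcases t.hd.adj.1 he'.symm with h | h
            · left; rw [h, Sym2.eq_swap]
            · right; rw [h, Sym2.eq_swap]; rfl
          · left; exact ⟨he', hu, hv⟩
      · rintro (he | he | he)
        · have he' : (delS G {d}).Adj u v := he
          exact he'.1
        · rw [he]; exact t.hd.hp
        · rw [Set.mem_singleton_iff] at he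
          rw [he]; exact t.hd.hq
  have h2 : Disjoint (delS G {d}).edgeSet ({s(d, p), s(d, x)} : Set (Sym2 V)) := by
    rw [Set.disjoint_left]
    rintro e he (h | h)
    · rw [h] at he
      have he' : (delS G {d}).Adj d p := he
      exact he'.2.1 rfl
    · rw [Set.mem_singleton_iff] at h
      rw [h] at he
      have he' : (delS G {d}).Adj d x := he
      exact he'.2.1 rfl
  rw [h1, Set.ncard_union_eq h2 (Set.toFinite _) (Set.toFinite _), Set.ncard_pair]
  intro h
  rw [Sym2.eq_iff] at h
  rcases h with ⟨-, h⟩ | ⟨h, -⟩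
  · exact t.px h
  · exact t.dx h

lemma delS_delS (G : SimpleGraph V) (d : V) (D : Set V) :
    delS (delS G {d}) D = delS G (insert d D) := by
  ext u v
  constructor
  · rintro ⟨⟨h1, h2, h3⟩, h4, h5⟩
    refine ⟨h1, ?_, ?_⟩
    · rintro (h | h)
      · exact h2 h
      · exact h4 h
    · rintro (h | h)
      · exact h3 h
      · exact h5 h
  · rintro ⟨h1, h2, h3⟩
    exact ⟨⟨h1, fun h => h2 (Or.inl h), fun h => h3 (Or.inl h)⟩, fun h => h2 (Or.inr h),
      fun h => h3 (Or.inr h)⟩

/-- **Existence.** -/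
theorem exists_dup [Finite V] (hp : PreD G U p) : ∃ D : Set V, DupOK G U p D := by
  classical
  induction hn : U.ncard using Nat.strong_induction_on generalizing G U with
  | _ n ih =>
    by_cases hex : ∃ x d d', d ≠ d' ∧ Hand G d p x ∧ Hand G d' p x
    · obtain ⟨x, d, d', h1, h2, h3⟩ := hex
      have t : Tw G U p x d d' := ⟨hp, h1, h2, h3⟩
      have hcard : (U \ {d}).ncard + 1 = U.ncard := Set.ncard_sdiff_singleton_add_one t.dU
        (Set.toFinite _)
      obtain ⟨D, hD⟩ := ih (U \ {d}).ncard (by omega) t.step rfl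
      have hdD : d ∉ D := fun h => (hD.sub h).2 rfl
      -- `x` is not a handle of `G - d`
      have hxh : ∀ y, ¬ Hand (delS G {d}) x p y := by
        intro y hy
        obtain ⟨z, hz, hzp, hzd, hzd'⟩ := t.third
        have e1 : (delS G {d}).Adj x z := ⟨hz, t.dx.symm, hzd⟩
        have e2 : (delS G {d}).Adj x d' := ⟨t.hd'.hq.symm, t.dx.symm, t.ne.symm⟩
        have e3 := (hy.adj.1 e1).resolve_left hzp
        have e4 := (hy.adj.1 e2).resolve_left t.dp'
        exact hzd' (e3.trans e4.symm)
      have hback : ∀ z y, Hand (delS G {d}) z p y → Hand G z p y := by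
        intro z y hz
        refine hand_of_del hz ?_
        intro hzd
        rcases t.hd.adj.1 hzd.symm with h | h
        · exact hz.hp.1.ne h
        · exact hxh y (h ▸ hz)
      have hxD : x ∉ D := by
        intro hx
        obtain ⟨-, y, -, -, -, -, -, hy, -⟩ := hD.twin x hx
        exact hxh y hy
      refine ⟨insert d D, ?_, ?_, ?_, ?_, ?_, ?_⟩
      · rintro v (rfl | hv)
        · exact t.dU
        · exact (hD.sub hv).1
      · rintro (h | h)
        · exact t.dp h.symm
        · exact hD.pD h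
      · rintro e (rfl | he)
        · by_cases hd'D : d' ∈ D
          · obtain ⟨d'', y, a1, a2, a3, a4, a5, a6, a7⟩ := hD.twin d' hd'D
            have b6 := hback _ _ a6
            have b7 := hback _ _ a7
            have hyx : y = x := by
              have : y ∈ G.neighborSet d' := by rw [b6.nb]; exact Or.inr rfl
              rw [h3.nb] at this
              rcases this with h | h
              · exact absurd h b6.ne.symm
              · exact h
            rw [hyx] at b7
            refine ⟨d'', x, a1.1, ?_, t.xU, ?_, (fun h => a1.2 h.symm), h2, b7⟩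
            · rintro (h | h)
              · exact a1.2 h
              · exact a2 h
            · rintro (h | h)
              · exact t.dx h.symm
              · exact hxD h
          · refine ⟨d', x, t.dU', ?_, t.xU, ?_, h1, h2, h3⟩
            · rintro (h | h)
              · exact h1 h.symm
              · exact hd'D h
            · rintro (h | h)
              · exact t.dx h.symm
              · exact hxD h
        · obtain ⟨d'', y, a1, a2, a3, a4, a5, a6, a7⟩ := hD.twin e he
          refine ⟨d'', y, a1.1, ?_, a3.1, ?_, a5, hback _ _ a6, hback _ _ a7⟩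
          · rintro (h | h)
            · exact a1.2 h
            · exact a2 h
          · rintro (h | h)
            · exact a3.2 h
            · exact a4 h
      · have e1 := hD.card
        have e2 := t.edges
        rw [delS_delS] at e1
        rw [Set.ncard_insert_of_notMem hdD (Set.toFinite _)]
        omega
      · have e1 := hD.pre
        rw [delS_delS] at e1
        have e2 : (U \ {d}) \ D = U \ insert d D := by
          ext v
          simp only [Set.mem_sdiff, Set.mem_singleton_iff, Set.mem_insert_iff]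
          tauto
        rwa [e2] at e1
      · have e1 := hD.preD
        rw [delS_delS] at e1
        have e2 : (U \ {d}) \ D = U \ insert d D := by
          ext v
          simp only [Set.mem_sdiff, Set.mem_singleton_iff, Set.mem_insert_iff]
          tauto
        rwa [e2] at e1
    · have e0 : delS G ∅ = G := by
        ext u v
        constructor
        · exact fun h => h.1
        · exact fun h => ⟨h, Set.notMem_empty _, Set.notMem_empty _⟩
      refine ⟨∅, ?_, ?_, ?_, ?_, ?_, ?_⟩
      · exact Set.empty_subset _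
      · exact Set.notMem_empty _
      · intro e he; exact absurd he (Set.notMem_empty _)
      · rw [e0]; simp
      · rw [e0, Set.sdiff_empty]
        refine ⟨hp.edge_mem, hp.deg2, ?_⟩
        intro Y hY hY2 hN
        by_contra hr
        obtain ⟨k1, k2, y, a1, a2, a3, -⟩ := hp.conn Y hY hY2 hN (by omega)
        exact hex ⟨y, k1, k2, a1, a2, a3⟩
      · rw [e0, Set.sdiff_empty]
        exact hp

end Pool.Agent.Helper51.W2
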