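import Pool.Agent.Helper57.TOP.Defs

/-!
# Flexible pairs

`fp_not_mem`: let `i j` be an edge and `m` a vertex with the two neighbours `i`, `j`. A balanced set
`Y` with three neighbours and nonempty rest does not contain `i`, provided that the graph has no
proper 2-cut and that it is not balanced without `j`.
-/

set_option autoImplicit false

namespace Pool.Agent.Helper51.W2

open SimpleGraph Pool.Agent.Helper57.TOK Pool.Agent.Helper57.TD Pool.Agent.Helper82.TK
open Pool.Agent.Helper57.TOP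

variable {V : Type*}

/-- A flexible pair is not contained in a balanced set with three neighbours. -/
theorem fp_not_mem [Finite V] {H : SimpleGraph V} {U : Set V} {i j m : V}
    (he : ∀ u v, H.Adj u v → u ∈ U)
    (hconn : ∀ Y ⊆ U, 2 ≤ Y.ncard → (Nb H Y).ncard ≤ 2 → (U \ (Y ∪ Nb H Y)).ncard ≤ 1)
    (hidx : ∀ κ, ¬ BalOff H (One V) {j} κ)
    (hij : H.Adj i j) (hmi : H.Adj m i) (hmj : H.Adj m j) (hm : ∀ x, H.Adj m x → x = i ∨ x = j)
    {Y : Set V} (hY : Y ⊆ U) (hY2 : 2 ≤ Y.ncard) (hN : (Nb H Y).ncard = 3)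
    (hrest : (U \ (Y ∪ Nb H Y)).Nonempty) {κ : V → ZMod 2} (hb : BalOn H (One V) Y κ) :
    i ∉ Y := by
  classical
  intro hi
  have hmU : m ∈ U := he m i hmi
  have two : ∀ a b d : ZMod 2, 1 = a + b → 1 = a + d → 1 = b + d → False := by decide
  have e1 : (1 : ZMod 2) = κ i + κ j := hb i j hi hij
  have e2 : (1 : ZMod 2) = κ i + κ m := hb i m hi hmi.symm
  have hjY : j ∉ Y := fun h => two _ _ _ e1 e2 (hb j m h hmj.symm)
  have hmY : m ∉ Y := fun h => two _ _ _ e2 e1 (hb m j h hmj)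
  have hjN : j ∈ Nb H Y := ⟨hjY, i, hi, hij⟩
  have hmN : m ∈ Nb H Y := ⟨hmY, i, hi, hmi.symm⟩
  have hjm : j ≠ m := hmj.ne.symm
  obtain ⟨q, hq⟩ : ∃ q, Nb H Y \ {j, m} = {q} := by
    rw [← Set.ncard_eq_one]
    have h1 : ({j, m} : Set V) ⊆ Nb H Y := by
      rintro x (rfl | rfl)
      · exact hjN
      · exact hmN
    rw [Set.ncard_sdiff h1 (Set.toFinite _), hN, Set.ncard_pair hjm]
  have hNq : ∀ x, x ∈ Nb H Y → x = j ∨ x = m ∨ x = q := by
    intro x hx
    by_cases h1 : x = j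
    · exact Or.inl h1
    by_cases h2 : x = m
    · exact Or.inr (Or.inl h2)
    have h3 : x ∈ Nb H Y \ {j, m} := ⟨hx, by rintro (h | h); exacts [h1 h, h2 h]⟩
    rw [hq] at h3
    exact Or.inr (Or.inr h3)
  have hqN : q ∈ Nb H Y := by
    have : q ∈ Nb H Y \ {j, m} := by rw [hq]; rfl
    exact this.1
  have hYU' : insert m Y ⊆ U := by
    rintro x (rfl | hx)
    · exact hmU
    · exact hY hx
  have hN' : Nb H (insert m Y) ⊆ {j, q} := by
    rintro x ⟨hx, y, hy, hyx⟩
    rcases hy with rfl | hy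
    · rcases hm x hyx with h | h
      · exact absurd (Or.inr (h ▸ hi)) hx
      · exact Or.inl h
    · have hxY : x ∉ Y := fun h => hx (Or.inr h)
      rcases hNq x ⟨hxY, y, hy, hyx⟩ with h | h | h
      · exact Or.inl h
      · exact absurd (Or.inl h) hx
      · exact Or.inr h
  have hN2 : (Nb H (insert m Y)).ncard ≤ 2 := by
    refine (Set.ncard_le_ncard hN' (Set.toFinite _)).trans ?_
    have := Set.ncard_insert_le j ({q} : Set V)
    rw [Set.ncard_singleton] at this
    omega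
  have hr1 := hconn (insert m Y) hYU'
    (hY2.trans (Set.ncard_le_ncard (Set.subset_insert _ _) (Set.toFinite _))) hN2
  have hsub : U \ (Y ∪ Nb H Y) ⊆ U \ (insert m Y ∪ Nb H (insert m Y)) := by
    rintro x ⟨hxU, hx⟩
    refine ⟨hxU, ?_⟩
    rintro ((h | h) | h)
    · exact hx (Or.inr (h ▸ hmN))
    · exact hx (Or.inl h)
    · rcases hN' h with h | h
      · exact hx (Or.inr (h ▸ hjN))
      · exact hx (Or.inr (h ▸ hqN))
  have hr2 : (U \ (Y ∪ Nb H Y)).ncard ≤ 1 :=
    (Set.ncard_le_ncard hsub (Set.toFinite _)).trans hr1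
  obtain ⟨r, hrU, hrY⟩ := hrest
  have hr3 : ∀ x, x ∈ U → x ∉ Y → x ∉ Nb H Y → x = r := by
    intro x h1 h2 h3
    exact (Set.ncard_le_one (Set.toFinite _)).1 hr2 x ⟨h1, by rintro (h | h); exacts [h2 h, h3 h]⟩
      r ⟨hrU, hrY⟩
  have hrY1 : r ∉ Y := fun h => hrY (Or.inl h)
  have hrN : r ∉ Nb H Y := fun h => hrY (Or.inr h)
  -- the potential
  have one : ∀ a : ZMod 2, 1 = a + (a + 1) := by decide
  have key : ∀ u v, u ≠ j → v ≠ j → H.Adj u v →
      (u ∈ Y ∨ v ∈ Y) ∨ (u = q ∧ v = r) ∨ (u = r ∧ v = q) := by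
    intro u v huj hvj huv
    by_cases hu : u ∈ Y
    · exact Or.inl (Or.inl hu)
    by_cases hv : v ∈ Y
    · exact Or.inl (Or.inr hv)
    right
    have hum : u ≠ m := by
      rintro rfl
      rcases hm v huv with h | h
      · exact hv (h ▸ hi)
      · exact hvj h
    have hvm : v ≠ m := by
      rintro rfl
      rcases hm u huv.symm with h | h
      · exact hu (h ▸ hi)
      · exact huj h
    have hu1 : u = q ∨ u = r := by
      by_cases h1 : u ∈ Nb H Y
      · rcases hNq u h1 with h | h | h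
        · exact absurd h huj
        · exact absurd h hum
        · exact Or.inl h
      · exact Or.inr (hr3 u (he u v huv) hu h1)
    have hv1 : v = q ∨ v = r := by
      by_cases h1 : v ∈ Nb H Y
      · rcases hNq v h1 with h | h | h
        · exact absurd h hvj
        · exact absurd h hvm
        · exact Or.inl h
      · exact Or.inr (hr3 v (he v u huv.symm) hv h1)
    rcases hu1 with h1 | h1 <;> rcases hv1 with h2 | h2
    · exact absurd (h1.trans h2.symm) huv.ne
    · exact Or.inl ⟨h1, h2⟩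
    · exact Or.inr ⟨h1, h2⟩
    · exact absurd (h1.trans h2.symm) huv.ne
  have hqr : q ≠ r := fun h => hrN (h ▸ hqN)
  have key2 : ∀ u v, u ∈ Y → H.Adj u v → u ≠ r ∧ v ≠ r := by
    intro u v hu huv
    refine ⟨fun h => hrY1 (h ▸ hu), ?_⟩
    rintro rfl
    exact hrN ⟨hrY1, u, hu, huv⟩
  refine hidx (fun x => if x = r then κ q + 1 else κ x) ?_
  intro u v hu hv huv
  change (1 : ZMod 2) = (if u = r then κ q + 1 else κ u) + (if v = r then κ q + 1 else κ v)
  rcases key u v hu hv huv with (h | h) | ⟨h1, h2⟩ | ⟨h1, h2⟩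
  · obtain ⟨h1, h2⟩ := key2 u v h huv
    rw [if_neg h1, if_neg h2]
    exact hb u v h huv
  · obtain ⟨h1, h2⟩ := key2 v u h huv.symm
    rw [if_neg h1, if_neg h2, add_comm]
    exact hb v u h huv.symm
  · rw [if_neg (h1 ▸ hqr), if_pos h2, h1]
    exact one _
  · rw [if_pos h1, if_neg (h2 ▸ hqr), h2, add_comm]
    exact one _

/-- The handle of a flexible pair may be removed from a balanced set: if the sets without `i`, `j`,
`m` are not bad then no set is bad. `D` is a set of excluded vertices. -/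
theorem fp_sparse [Finite V] {H : SimpleGraph V} {U : Set V} {i j m : V}
    (he : ∀ u v, H.Adj u v → u ∈ U)
    (hconn : ∀ Y ⊆ U, 2 ≤ Y.ncard → (Nb H Y).ncard ≤ 2 → (U \ (Y ∪ Nb H Y)).ncard ≤ 1)
    (hi : ∀ κ, ¬ BalOff H (One V) {i} κ) (hj : ∀ κ, ¬ BalOff H (One V) {j} κ)
    (hij : H.Adj i j) (hmi : H.Adj m i) (hmj : H.Adj m j) (hm : ∀ x, H.Adj m x → x = i ∨ x = j)
    (D : Set V)
    (hsp : ∀ Y ⊆ U, 2 ≤ Y.ncard → (Nb H Y).ncard = 3 → (U \ (Y ∪ Nb H Y)).Nonempty →
      Disjoint Y D → i ∉ Y → j ∉ Y → m ∉ Y →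
      ∀ κ, BalOn H (One V) Y κ → fden H Y ≤ beta κ (Nb H Y)) :
    ∀ Y ⊆ U, 2 ≤ Y.ncard → (Nb H Y).ncard = 3 → (U \ (Y ∪ Nb H Y)).Nonempty → Disjoint Y D →
      ∀ κ, BalOn H (One V) Y κ → fden H Y ≤ beta κ (Nb H Y) := by
  classical
  intro Y hY hY2 hN hrest hD κ hb
  have hiY : i ∉ Y := fp_not_mem he hconn hj hij hmi hmj hm hY hY2 hN hrest hb
  have hjY : j ∉ Y := fp_not_mem he hconn hi hij.symm hmj hmi (fun x hx => (hm x hx).symm)
    hY hY2 hN hrest hb
  by_cases hmY : m ∉ Y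
  · exact hsp Y hY hY2 hN hrest hD hiY hjY hmY κ hb
  rw [not_not] at hmY
  set Y0 := Y \ {m} with hY0
  have hmY0 : m ∉ Y0 := fun h => h.2 rfl
  have hY0Y : Y0 ⊆ Y := fun x hx => hx.1
  have hins : Y = insert m Y0 := by
    ext x
    constructor
    · intro hx
      by_cases h : x = m
      · exact Or.inl h
      · exact Or.inr ⟨hx, h⟩
    · rintro (rfl | hx)
      · exact hmY
      · exact hx.1
  have hf : fden H Y = fden H Y0 := by
    have h1 := fden_insert H hmY0
    have h2 : H.neighborSet m \ Y0 = {i, j} := by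
      ext x
      constructor
      · rintro ⟨hx, -⟩
        exact hm x hx
      · rintro (rfl | rfl)
        · exact ⟨hmi, fun h => hiY h.1⟩
        · exact ⟨hmj, fun h => hjY h.1⟩
    rw [h2, Set.ncard_pair hij.ne] at h1
    rw [hins, h1]
    push_cast
    ring
  have hN0 : Nb H Y0 ⊆ Nb H Y := by
    rintro v ⟨hv, u, hu, huv⟩
    refine ⟨?_, u, hu.1, huv⟩
    intro hvY
    have hvm : v = m := by
      by_contra h
      exact hv ⟨hvY, h⟩
    rw [hvm] at huv
    rcases hm u huv.symm with h | h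
    · exact hiY (h ▸ hu.1)
    · exact hjY (h ▸ hu.1)
  have hrest0 : insert m (U \ (Y ∪ Nb H Y)) ⊆ U \ (Y0 ∪ Nb H Y0) := by
    rintro x (rfl | ⟨hxU, hx⟩)
    · refine ⟨hY hmY, ?_⟩
      rintro (h | h)
      · exact hmY0 h
      · exact (hN0 h).1 hmY
    · refine ⟨hxU, ?_⟩
      rintro (h | h)
      · exact hx (Or.inl (hY0Y h))
      · exact hx (Or.inr (hN0 h))
  have hrest2 : 2 ≤ (U \ (Y0 ∪ Nb H Y0)).ncard := by
    have h1 := Set.ncard_le_ncard hrest0 (Set.toFinite _)
    rw [Set.ncard_insert_of_notMem (fun h => h.2 (Or.inl hmY)) (Set.toFinite _)] at h1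
    have h2 := (Set.ncard_pos (Set.toFinite _)).2 hrest
    omega
  have hb0 : BalOn H (One V) Y0 κ := fun u v hu huv => hb u v hu.1 huv
  have hle3 : (Nb H Y0).ncard ≤ 3 := hN ▸ Set.ncard_le_ncard hN0 (Set.toFinite _)
  rw [hf]
  by_cases hc : 2 ≤ Y0.ncard
  · have h3 : (Nb H Y0).ncard = 3 := by
      by_contra h
      have := hconn Y0 (hY0Y.trans hY) hc (by omega)
      omega
    have heq : Nb H Y0 = Nb H Y :=
      Set.eq_of_subset_of_ncard_le hN0 (by omega) (Set.toFinite _)
    rw [← heq]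
    refine hsp Y0 (hY0Y.trans hY) hc h3 ?_ (hD.mono_left hY0Y) (fun h => hiY h.1)
      (fun h => hjY h.1) hmY0 κ hb0
    rw [← Set.ncard_pos (Set.toFinite _)]
    omega
  · have h1 : Y0.ncard = 1 := by
      have h2 : Y.ncard = Y0.ncard + 1 := by
        conv_lhs => rw [hins]
        exact Set.ncard_insert_of_notMem hmY0 (Set.toFinite _)
      omega
    obtain ⟨x, hx⟩ := Set.ncard_eq_one.1 h1
    have hNx : Nb H Y0 = H.neighborSet x := by
      ext v
      rw [hx]
      constructor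
      · rintro ⟨-, u, hu, huv⟩
        rw [Set.mem_singleton_iff] at hu
        exact hu ▸ huv
      · intro hv
        refine ⟨?_, x, rfl, hv⟩
        intro h
        rw [Set.mem_singleton_iff] at h
        rw [SimpleGraph.mem_neighborSet] at hv
        exact hv.ne h.symm
    have hfx : fden H Y0 = ((Nb H Y0).ncard : ℤ) - 2 := by
      rw [hNx, hx]
      unfold fden
      rw [rho_singleton, Set.ncard_singleton]
      norm_num
    by_cases h3 : (Nb H Y0).ncard = 3
    · have heq : Nb H Y0 = Nb H Y :=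
        Set.eq_of_subset_of_ncard_le hN0 (by omega) (Set.toFinite _)
      have hmono : Mono κ (Nb H Y) := by
        rw [← heq, hNx]
        have hxY : x ∈ Y0 := by rw [hx]; rfl
        intro a ha b hb'
        have e1 := hb0 x a hxY ha
        have e2 := hb0 x b hxY hb'
        have e3 : ∀ p q r : ZMod 2, 1 = p + q → 1 = p + r → q = r := by decide
        exact e3 _ _ _ e1 e2
      rw [beta_of_mono hmono, hfx, heq]
    · have h4 := le_beta κ (Nb H Y)
      rw [hN] at h4
      have h5 : ((Nb H Y0).ncard : ℤ) ≤ 2 := by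
        have : (Nb H Y0).ncard ≤ 2 := by omega
        exact_mod_cast this
      rw [hfx]
      push_cast at h4
      linarith

end Pool.Agent.Helper51.W2
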