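import Pool.Agent.Helper1.PHI.StubB
import Pool.Agent.Helper1.PHI.Ident
import Pool.Agent.Helper51.W2.FP

/-!
# The graph with two flexible links: basic facts

Adjacency in `psiG` with the handle `k`, the neighbourhoods, and all fields of `Ex3` except the
density.
-/

set_option autoImplicit false

namespace Pool.Agent.Helper51.W2

open SimpleGraph Pool.Agent.Helper57.TOK Pool.Agent.Helper57.TD Pool.Agent.Helper57.TOP
  Pool.Agent.Helper82.TK Pool.Agent.Helper51.GX Pool.Agent.Helper75.SEP Pool.Agent.Helper1.SEP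
  Pool.Agent.Helper1.PHI

variable {V : Type*}

lemma phE_adj {a b m u v : V} : (phE a b m).Adj u v ↔
    ((u = a ∧ v = b) ∨ (u = b ∧ v = a) ∨ (u = m ∧ v = a) ∨ (u = a ∧ v = m) ∨
      (u = m ∧ v = b) ∨ (u = b ∧ v = m)) ∧ u ≠ v := by
  unfold phE
  rw [SimpleGraph.fromEdgeSet_adj]
  simp only [Set.mem_insert_iff, Set.mem_singleton_iff, Sym2.eq_iff]
  tauto

/-- What is used of the configuration. `Q` is the part, `W = Q + i, j, s, t`. -/
structure PS (G : SimpleGraph V) (U A B X0 Q : Set V) (i j k s t m : V) : Prop where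
  s3 : Sep3 G U A B i j k
  cb : CB G U
  vio : Vio G A B i j k s t X0
  mB : m ∈ B
  hQ : Q = A \ (X0 ∪ {s, t})

variable {G : SimpleGraph V} {U A B X0 Q : Set V} {i j k s t m : V}

namespace PS

lemma iA (h : PS G U A B X0 Q i j k s t m) : i ∉ A := h.s3.notA (Or.inl rfl)
lemma jA (h : PS G U A B X0 Q i j k s t m) : j ∉ A := h.s3.notA (Or.inr (Or.inl rfl))
lemma kA (h : PS G U A B X0 Q i j k s t m) : k ∉ A := h.s3.notA (Or.inr (Or.inr rfl))
lemma iB (h : PS G U A B X0 Q i j k s t m) : i ∉ B := h.s3.notB (Or.inl rfl)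
lemma jB (h : PS G U A B X0 Q i j k s t m) : j ∉ B := h.s3.notB (Or.inr (Or.inl rfl))
lemma kB (h : PS G U A B X0 Q i j k s t m) : k ∉ B := h.s3.notB (Or.inr (Or.inr rfl))
lemma AB (h : PS G U A B X0 Q i j k s t m) {x : V} (hx : x ∈ A) : x ∉ B :=
  Set.disjoint_left.1 h.s3.disj hx
lemma mA (h : PS G U A B X0 Q i j k s t m) : m ∉ A := fun hh => h.AB hh h.mB
lemma mi (h : PS G U A B X0 Q i j k s t m) : m ≠ i := fun hh => h.iB (hh ▸ h.mB)
lemma mj (h : PS G U A B X0 Q i j k s t m) : m ≠ j := fun hh => h.jB (hh ▸ h.mB)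
lemma mk' (h : PS G U A B X0 Q i j k s t m) : m ≠ k := fun hh => h.kB (hh ▸ h.mB)

lemma sk (h : PS G U A B X0 Q i j k s t m) : s ≠ k := by
  rintro rfl
  rcases h.vio.sA with h1 | h1 | h1
  · exact h.kA h1
  · exact h.s3.ik h1.symm
  · exact h.s3.jk h1.symm

lemma tk (h : PS G U A B X0 Q i j k s t m) : t ≠ k := by
  rintro rfl
  rcases h.vio.tA with h1 | h1 | h1
  · exact h.kA h1
  · exact h.s3.ik h1.symm
  · exact h.s3.jk h1.symm

lemma ms (h : PS G U A B X0 Q i j k s t m) : m ≠ s := by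
  rintro rfl
  rcases h.vio.sA with h1 | h1 | h1
  · exact h.mA h1
  · exact h.mi h1
  · exact h.mj h1

lemma mt (h : PS G U A B X0 Q i j k s t m) : m ≠ t := by
  rintro rfl
  rcases h.vio.tA with h1 | h1 | h1
  · exact h.mA h1
  · exact h.mi h1
  · exact h.mj h1

lemma QA (h : PS G U A B X0 Q i j k s t m) : Q ⊆ A := by
  rw [h.hQ]; exact fun x hx => hx.1

lemma QX (h : PS G U A B X0 Q i j k s t m) {x : V} (hx : x ∈ Q) : x ∉ X0 := by
  rw [h.hQ] at hx; exact fun hh => hx.2 (Or.inl hh)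

lemma Qs (h : PS G U A B X0 Q i j k s t m) {x : V} (hx : x ∈ Q) : x ≠ s := by
  rw [h.hQ] at hx; exact fun hh => hx.2 (Or.inr (Or.inl hh))

lemma Qt (h : PS G U A B X0 Q i j k s t m) {x : V} (hx : x ∈ Q) : x ≠ t := by
  rw [h.hQ] at hx; exact fun hh => hx.2 (Or.inr (Or.inr hh))

lemma Qi (h : PS G U A B X0 Q i j k s t m) {x : V} (hx : x ∈ Q) : x ≠ i :=
  fun hh => h.iA (hh ▸ h.QA hx)

lemma Qj (h : PS G U A B X0 Q i j k s t m) {x : V} (hx : x ∈ Q) : x ≠ j :=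
  fun hh => h.jA (hh ▸ h.QA hx)

lemma Qk (h : PS G U A B X0 Q i j k s t m) {x : V} (hx : x ∈ Q) : x ≠ k :=
  fun hh => h.kA (hh ▸ h.QA hx)

lemma Qm (h : PS G U A B X0 Q i j k s t m) {x : V} (hx : x ∈ Q) : x ≠ m :=
  fun hh => h.mA (hh ▸ h.QA hx)

lemma memQ (h : PS G U A B X0 Q i j k s t m) {x : V} (hx : x ∈ A) (h1 : x ∉ X0) (h2 : x ≠ s)
    (h3 : x ≠ t) : x ∈ Q := by
  rw [h.hQ]
  refine ⟨hx, ?_⟩
  rintro (h4 | h4 | h4)
  · exact h1 h4
  · exact h2 h4
  · exact h3 h4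

/-- Adjacency in `psiG`. -/
lemma adj {u v : V} : (psiG G Q i j s t m k).Adj u v ↔
    (G.Adj u v ∧ u ∈ Q ∪ {i, j, s, t} ∧ v ∈ Q ∪ {i, j, s, t}) ∨
      (((u = s ∧ v = t) ∨ (u = t ∧ v = s) ∨ (u = k ∧ v = s) ∨ (u = s ∧ v = k) ∨
      (u = k ∧ v = t) ∨ (u = t ∧ v = k)) ∧ u ≠ v) ∨
      (((u = i ∧ v = j) ∨ (u = j ∧ v = i) ∨ (u = m ∧ v = i) ∨ (u = i ∧ v = m) ∨
      (u = m ∧ v = j) ∨ (u = j ∧ v = m)) ∧ u ≠ v) := by
  unfold psiG
  rw [SimpleGraph.sup_adj, SimpleGraph.sup_adj, inG_adj, phE_adj, phE_adj, or_assoc]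

lemma of_G {u v : V} (huv : G.Adj u v) (hu : u ∈ Q ∪ {i, j, s, t})
    (hv : v ∈ Q ∪ {i, j, s, t}) : (psiG G Q i j s t m k).Adj u v := adj.2 (Or.inl ⟨huv, hu, hv⟩)

lemma ij (h : PS G U A B X0 Q i j k s t m) : (psiG G Q i j s t m k).Adj i j :=
  adj.2 (Or.inr (Or.inr ⟨Or.inl ⟨rfl, rfl⟩, h.s3.ij⟩))

lemma ami (h : PS G U A B X0 Q i j k s t m) : (psiG G Q i j s t m k).Adj m i :=
  adj.2 (Or.inr (Or.inr ⟨Or.inr (Or.inr (Or.inl ⟨rfl, rfl⟩)), h.mi⟩))

lemma amj (h : PS G U A B X0 Q i j k s t m) : (psiG G Q i j s t m k).Adj m j :=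
  adj.2 (Or.inr (Or.inr ⟨Or.inr (Or.inr (Or.inr (Or.inr (Or.inl ⟨rfl, rfl⟩)))), h.mj⟩))

lemma ast (h : PS G U A B X0 Q i j k s t m) : (psiG G Q i j s t m k).Adj s t :=
  adj.2 (Or.inr (Or.inl ⟨Or.inl ⟨rfl, rfl⟩, h.vio.st⟩))

lemma aks (h : PS G U A B X0 Q i j k s t m) : (psiG G Q i j s t m k).Adj k s :=
  adj.2 (Or.inr (Or.inl ⟨Or.inr (Or.inr (Or.inl ⟨rfl, rfl⟩)), h.sk.symm⟩))

lemma akt (h : PS G U A B X0 Q i j k s t m) : (psiG G Q i j s t m k).Adj k t :=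
  adj.2 (Or.inr (Or.inl ⟨Or.inr (Or.inr (Or.inr (Or.inr (Or.inl ⟨rfl, rfl⟩)))), h.tk.symm⟩))

/-- neighbours of `m` -/
lemma nm (h : PS G U A B X0 Q i j k s t m) (x : V) (hx : (psiG G Q i j s t m k).Adj m x) :
    x = i ∨ x = j := by
  rcases adj.1 hx with ⟨-, h1, -⟩ | ⟨h1, -⟩ | ⟨h1, -⟩
  · exfalso
    rcases h1 with h1 | h1 | h1 | h1 | h1
    · exact h.mA (h.QA h1)
    · exact h.mi h1
    · exact h.mj h1
    · exact h.ms h1
    · exact h.mt h1
  · exfalso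
    rcases h1 with ⟨h1, -⟩ | ⟨h1, -⟩ | ⟨h1, -⟩ | ⟨h1, -⟩ | ⟨h1, -⟩ | ⟨h1, -⟩
    · exact h.ms h1
    · exact h.mt h1
    · exact h.mk' h1
    · exact h.ms h1
    · exact h.mk' h1
    · exact h.mt h1
  · rcases h1 with ⟨h1, -⟩ | ⟨h1, -⟩ | ⟨-, h1⟩ | ⟨h1, -⟩ | ⟨-, h1⟩ | ⟨h1, -⟩
    · exact absurd h1 h.mi
    · exact absurd h1 h.mj
    · exact Or.inl h1
    · exact absurd h1 h.mi
    · exact Or.inr h1
    · exact absurd h1 h.mj

/-- neighbours of `k` -/
lemma nk (h : PS G U A B X0 Q i j k s t m) (x : V) (hx : (psiG G Q i j s t m k).Adj k x) :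
    x = s ∨ x = t := by
  rcases adj.1 hx with ⟨-, h1, -⟩ | ⟨h1, -⟩ | ⟨h1, -⟩
  · exfalso
    rcases h1 with h1 | h1 | h1 | h1 | h1
    · exact h.kA (h.QA h1)
    · exact h.s3.ik h1.symm
    · exact h.s3.jk h1.symm
    · exact h.sk h1.symm
    · exact h.tk h1.symm
  · rcases h1 with ⟨h1, -⟩ | ⟨h1, -⟩ | ⟨-, h1⟩ | ⟨h1, -⟩ | ⟨-, h1⟩ | ⟨h1, -⟩
    · exact absurd h1 h.sk.symm
    · exact absurd h1 h.tk.symm
    · exact Or.inl h1
    · exact absurd h1 h.sk.symm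
    · exact Or.inr h1
    · exact absurd h1 h.tk.symm
  · exfalso
    rcases h1 with ⟨h1, -⟩ | ⟨h1, -⟩ | ⟨h1, -⟩ | ⟨h1, -⟩ | ⟨h1, -⟩ | ⟨h1, -⟩
    · exact h.s3.ik h1.symm
    · exact h.s3.jk h1.symm
    · exact h.mk' h1.symm
    · exact h.s3.ik h1.symm
    · exact h.mk' h1.symm
    · exact h.s3.jk h1.symm

/-- the `G`-neighbours of a vertex of `A` outside `X0` and different from `k`, `X0` -/
lemma nbA' (h : PS G U A B X0 Q i j k s t m) {u v : V} (hu : u ∈ A)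
    (huv : G.Adj u v) : v ∈ X0 ∨ v = k ∨ v ∈ Q ∪ {i, j, s, t} := by
  by_cases h1 : v ∈ X0
  · exact Or.inl h1
  by_cases h2 : v = s
  · exact Or.inr (Or.inr (Or.inr (Or.inr (Or.inr (Or.inl h2)))))
  by_cases h3 : v = t
  · exact Or.inr (Or.inr (Or.inr (Or.inr (Or.inr (Or.inr h3)))))
  rcases h.s3.nbA hu huv with h4 | h4 | h4 | h4
  · exact Or.inr (Or.inr (Or.inl (h.memQ h4 h1 h2 h3)))
  · exact Or.inr (Or.inr (Or.inr (Or.inl h4)))
  · exact Or.inr (Or.inr (Or.inr (Or.inr (Or.inl h4))))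
  · exact Or.inr (Or.inl h4)

/-- the `G`-neighbours of a vertex of `Q` -/
lemma nbQ (h : PS G U A B X0 Q i j k s t m) {u v : V} (hu : u ∈ Q)
    (huv : G.Adj u v) : v ∈ Q ∪ {i, j, s, t} := by
  rcases h.nbA' (h.QA hu) huv with h1 | h1 | h1
  · exfalso
    rcases h.vio.nb v h1 u huv.symm with h2 | h2 | h2 | h2
    · exact h.QX hu h2
    · exact h.Qk hu h2
    · exact h.Qs hu h2
    · exact h.Qt hu h2
  · exfalso
    subst h1
    rcases h.vio.nk u huv.symm with h2 | h2 | h2 | h2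
    · exact h.AB (h.QA hu) h2
    · exact h.QX hu h2
    · exact h.Qs hu h2
    · exact h.Qt hu h2
  · exact h1

/-- Adjacency at a vertex of `Q` -/
lemma adjQ (h : PS G U A B X0 Q i j k s t m) {u v : V} (hu : u ∈ Q) :
    (psiG G Q i j s t m k).Adj u v ↔ G.Adj u v := by
  constructor
  · intro huv
    rcases adj.1 huv with h1 | ⟨h1, -⟩ | ⟨h1, -⟩
    · exact h1.1
    · exfalso
      rcases h1 with ⟨h1, -⟩ | ⟨h1, -⟩ | ⟨h1, -⟩ | ⟨h1, -⟩ | ⟨h1, -⟩ | ⟨h1, -⟩
      · exact h.Qs hu h1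
      · exact h.Qt hu h1
      · exact h.Qk hu h1
      · exact h.Qs hu h1
      · exact h.Qk hu h1
      · exact h.Qt hu h1
    · exfalso
      rcases h1 with ⟨h1, -⟩ | ⟨h1, -⟩ | ⟨h1, -⟩ | ⟨h1, -⟩ | ⟨h1, -⟩ | ⟨h1, -⟩
      · exact h.Qi hu h1
      · exact h.Qj hu h1
      · exact h.Qm hu h1
      · exact h.Qi hu h1
      · exact h.Qm hu h1
      · exact h.Qj hu h1
  · intro huv
    exact of_G huv (Or.inl hu) (h.nbQ hu huv)

lemma Nb_sub (h : PS G U A B X0 Q i j k s t m) {Y : Set V} (hY : Y ⊆ Q) :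
    Nb (psiG G Q i j s t m k) Y = Nb G Y := by
  ext v
  constructor
  · rintro ⟨h1, u, hu, huv⟩
    exact ⟨h1, u, hu, (h.adjQ (hY hu)).1 huv⟩
  · rintro ⟨h1, u, hu, huv⟩
    exact ⟨h1, u, hu, (h.adjQ (hY hu)).2 huv⟩

lemma memU {x : V} : x ∈ psiU Q i j s t m k ↔
    x ∈ Q ∨ x = i ∨ x = j ∨ x = s ∨ x = t ∨ x = m ∨ x = k := by
  unfold psiU
  simp only [Set.mem_union, Set.mem_insert_iff, Set.mem_singleton_iff]
  tauto

lemma edge_mem (u v : V) (huv : (psiG G Q i j s t m k).Adj u v) : u ∈ psiU Q i j s t m k := by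
  rw [memU]
  rcases adj.1 huv with ⟨-, h1, -⟩ | ⟨h1, -⟩ | ⟨h1, -⟩
  · rcases h1 with h1 | h1 | h1 | h1 | h1 <;> tauto
  · rcases h1 with ⟨h1, -⟩ | ⟨h1, -⟩ | ⟨h1, -⟩ | ⟨h1, -⟩ | ⟨h1, -⟩ | ⟨h1, -⟩ <;> tauto
  · rcases h1 with ⟨h1, -⟩ | ⟨h1, -⟩ | ⟨h1, -⟩ | ⟨h1, -⟩ | ⟨h1, -⟩ | ⟨h1, -⟩ <;> tauto

lemma two_of [Finite V] {H : SimpleGraph V} {u a b : V} (ha : H.Adj u a) (hb : H.Adj u b)
    (hab : a ≠ b) : 2 ≤ (H.neighborSet u).ncard := by
  have h1 : ({a, b} : Set V) ⊆ H.neighborSet u := by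
    rintro x (rfl | rfl)
    · exact ha
    · exact hb
  have h2 := Set.ncard_le_ncard h1 (Set.toFinite _)
  rwa [Set.ncard_pair hab] at h2

lemma deg2 [Finite V] (h : PS G U A B X0 Q i j k s t m) (y : V)
    (hy : y ∈ psiU Q i j s t m k) : 2 ≤ ((psiG G Q i j s t m k).neighborSet y).ncard := by
  rw [memU] at hy
  rcases hy with hy | rfl | rfl | rfl | rfl | rfl | rfl
  · have h1 : (psiG G Q i j s t m k).neighborSet y = G.neighborSet y := by
      ext v; exact h.adjQ hy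
    rw [h1]
    have := h.cb.deg3 y (h.s3.AU (h.QA hy))
    omega
  · exact two_of h.ij h.ami.symm h.mj.symm
  · exact two_of h.ij.symm h.amj.symm h.mi.symm
  · exact two_of h.ast h.aks.symm h.tk
  · exact two_of h.ast.symm h.akt.symm h.sk
  · exact two_of h.ami h.amj h.s3.ij
  · exact two_of h.aks h.akt h.vio.st

/-- A small set of `A` is impossible. -/
lemma no_small [Finite V] (h : PS G U A B X0 Q i j k s t m) {Y : Set V} (hY : Y ⊆ A)
    (hne : Y.Nonempty) (hN : (Nb G Y).ncard ≤ 2) : False := by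
  classical
  by_cases h2 : 2 ≤ Y.ncard
  · have h3 := h.cb.conn Y (hY.trans h.s3.AU) h2 hN
    have h4 : B ⊆ U \ (Y ∪ Nb G Y) := by
      intro b hb
      refine ⟨h.s3.BU hb, ?_⟩
      rintro (h5 | ⟨-, u, hu, hub⟩)
      · exact h.AB (hY h5) hb
      · rcases h.s3.nbA (hY hu) hub with h6 | h6 | h6 | h6
        · exact h.AB h6 hb
        · exact h.iB (h6 ▸ hb)
        · exact h.jB (h6 ▸ hb)
        · exact h.kB (h6 ▸ hb)
    have h5 := Set.ncard_le_ncard h4 (Set.toFinite _)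
    have h6 := h.s3.B2
    omega
  · obtain ⟨u, hu⟩ := hne
    have h3 : G.neighborSet u ⊆ Nb G Y := by
      intro v hv
      refine ⟨?_, u, hu, hv⟩
      intro hvY
      have h4 : ({u, v} : Set V) ⊆ Y := by
        rintro x (rfl | rfl)
        · exact hu
        · exact hvY
      have h5 := Set.ncard_le_ncard h4 (Set.toFinite _)
      rw [Set.ncard_pair (SimpleGraph.Adj.ne hv)] at h5
      omega
    have h4 := Set.ncard_le_ncard h3 (Set.toFinite _)
    have h5 := h.cb.deg3 u (h.s3.AU (hY hu))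
    omega

/-- Connectivity: the side without the triangle `i j m`. -/
lemma conn_aux [Finite V] (h : PS G U A B X0 Q i j k s t m)
    (hmax : ∀ s' t' X', Vio G A B i j k s' t' X' → X0 ⊆ X' → X' = X0)
    {Z : Set V} (hZ : Z ⊆ psiU Q i j s t m k) (hZ2 : 2 ≤ Z.ncard)
    (hN : (Nb (psiG G Q i j s t m k) Z).ncard ≤ 2)
    (hr : 2 ≤ (psiU Q i j s t m k \ (Z ∪ Nb (psiG G Q i j s t m k) Z)).ncard)
    (hiZ : i ∉ Z) (hjZ : j ∉ Z) (hmZ : m ∉ Z) : False := by
  classical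
  set H := psiG G Q i j s t m k with hH
  have hmem : ∀ x ∈ Z, x ∈ Q ∨ ((x = s ∨ x = t) ∧ x ∈ A) ∨ x = k := by
    intro x hx
    rcases memU.1 (hZ hx) with h1 | h1 | h1 | h1 | h1 | h1 | h1
    · exact Or.inl h1
    · exact absurd (h1 ▸ hx) hiZ
    · exact absurd (h1 ▸ hx) hjZ
    · right; left
      refine ⟨Or.inl h1, ?_⟩
      rcases h.vio.sA with h2 | h2 | h2
      · rw [h1]; exact h2
      · exact absurd ((h1.trans h2) ▸ hx) hiZ
      · exact absurd ((h1.trans h2) ▸ hx) hjZ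
    · right; left
      refine ⟨Or.inr h1, ?_⟩
      rcases h.vio.tA with h2 | h2 | h2
      · rw [h1]; exact h2
      · exact absurd ((h1.trans h2) ▸ hx) hiZ
      · exact absurd ((h1.trans h2) ▸ hx) hjZ
    · exact absurd (h1 ▸ hx) hmZ
    · exact Or.inr (Or.inr h1)
  by_cases hcase : s ∈ Z ∨ t ∈ Z ∨ k ∈ Z
  swap
  · -- a set of `Q`
    push Not at hcase
    have hZQ : Z ⊆ Q := by
      intro x hx
      rcases hmem x hx with h1 | ⟨h1 | h1, -⟩ | h1
      · exact h1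
      · exact absurd (h1 ▸ hx) hcase.1
      · exact absurd (h1 ▸ hx) hcase.2.1
      · exact absurd (h1 ▸ hx) hcase.2.2
    refine h.no_small (hZQ.trans h.QA) ?_ (h.Nb_sub hZQ ▸ hN)
    rw [← Set.ncard_pos (Set.toFinite _)]
    omega
  -- `s`, `t`, `k` are in the closed set
  have hcl : ∀ x y, x ∈ Z → H.Adj x y → y ∈ Z ∨ y ∈ Nb H Z := by
    intro x y hx hxy
    by_cases hy : y ∈ Z
    · exact Or.inl hy
    · exact Or.inr ⟨hy, x, hx, hxy⟩
  have hst : (s ∈ Z ∨ s ∈ Nb H Z) ∧ (t ∈ Z ∨ t ∈ Nb H Z) ∧ (k ∈ Z ∨ k ∈ Nb H Z) := by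
    rcases hcase with h1 | h1 | h1
    · exact ⟨Or.inl h1, hcl s t h1 h.ast, hcl s k h1 h.aks.symm⟩
    · exact ⟨hcl t s h1 h.ast.symm, Or.inl h1, hcl t k h1 h.akt.symm⟩
    · exact ⟨hcl k s h1 h.aks, hcl k t h1 h.akt, Or.inl h1⟩
  -- the enlarged set
  set X' : Set V := (Z \ {k}) ∪ X0 with hX'
  have hX'A : X' ⊆ A := by
    rintro x (⟨hx, hxk⟩ | hx)
    · rcases hmem x hx with h1 | ⟨-, h1⟩ | h1
      · exact h.QA h1
      · exact h1
      · exact absurd h1 hxk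
    · exact h.vio.sub hx
  have hWcl : ∀ u v, u ∈ Z → u ≠ k → G.Adj u v → v ∈ X' ∨ v = k ∨ v ∈ Nb H Z := by
    intro u v hu huk huv
    have huA : u ∈ A := hX'A (Or.inl ⟨hu, huk⟩)
    rcases h.nbA' huA huv with h1 | h1 | h1
    · exact Or.inl (Or.inr h1)
    · exact Or.inr (Or.inl h1)
    · have huW : u ∈ Q ∪ {i, j, s, t} := by
        rcases hmem u hu with h2 | ⟨h2 | h2, -⟩ | h2
        · exact Or.inl h2
        · exact Or.inr (Or.inr (Or.inr (Or.inl h2)))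
        · exact Or.inr (Or.inr (Or.inr (Or.inr h2)))
        · exact absurd h2 huk
      have hvk : v ≠ k := by
        rintro rfl
        rcases h1 with h1 | h1 | h1 | h1 | h1
        · exact h.kA (h.QA h1)
        · exact h.s3.ik h1.symm
        · exact h.s3.jk h1.symm
        · exact h.sk h1.symm
        · exact h.tk h1.symm
      rcases hcl u v hu (of_G huv huW h1) with h2 | h2
      · exact Or.inl (Or.inl ⟨h2, hvk⟩)
      · exact Or.inr (Or.inr h2)
  have hnb : ∀ u ∈ X', ∀ v, G.Adj u v → v ∈ X' ∨ v = k ∨ v ∈ Nb H Z := by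
    rintro u (⟨hu, huk⟩ | hu) v huv
    · exact hWcl u v hu huk huv
    · rcases h.vio.nb u hu v huv with h1 | h1 | h1 | h1
      · exact Or.inl (Or.inr h1)
      · exact Or.inr (Or.inl h1)
      · rcases hst.1 with h2 | h2
        · exact Or.inl (Or.inl ⟨h1 ▸ h2, h1 ▸ h.sk⟩)
        · exact Or.inr (Or.inr (h1 ▸ h2))
      · rcases hst.2.1 with h2 | h2
        · exact Or.inl (Or.inl ⟨h1 ▸ h2, h1 ▸ h.tk⟩)
        · exact Or.inr (Or.inr (h1 ▸ h2))
  have hne : X'.Nonempty := h.vio.ne.mono (fun x hx => Or.inr hx)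
  have hNX : Nb G X' ⊆ insert k (Nb H Z) := by
    rintro v ⟨hv, u, hu, huv⟩
    rcases hnb u hu v huv with h1 | h1 | h1
    · exact absurd h1 hv
    · exact Or.inl h1
    · exact Or.inr h1
  have hk : k ∉ Nb H Z := by
    intro hk
    refine h.no_small hX'A hne ?_
    have h1 : insert k (Nb H Z) = Nb H Z := Set.insert_eq_of_mem hk
    rw [h1] at hNX
    exact (Set.ncard_le_ncard hNX (Set.toFinite _)).trans hN
  have hkZ : k ∈ Z := hst.2.2.resolve_right hk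
  have hN2 : (Nb H Z).ncard = 2 := by
    by_contra hcon
    refine h.no_small hX'A hne ?_
    refine (Set.ncard_le_ncard hNX (Set.toFinite _)).trans ((Set.ncard_insert_le _ _).trans ?_)
    omega
  obtain ⟨s', t', hst', hNst⟩ := Set.ncard_eq_two.1 hN2
  have hNmem : ∀ x, x ∈ Nb H Z → x ∈ A ∨ x = i ∨ x = j := by
    rintro x ⟨hxZ, u, hu, hux⟩
    rcases memU.1 (edge_mem x u hux.symm) with h1 | h1 | h1 | h1 | h1 | h1 | h1
    · exact Or.inl (h.QA h1)
    · exact Or.inr (Or.inl h1)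
    · exact Or.inr (Or.inr h1)
    · rw [h1]; exact h.vio.sA
    · rw [h1]; exact h.vio.tA
    · exfalso
      subst h1
      rcases h.nm u hux.symm with h2 | h2
      · exact hiZ (h2 ▸ hu)
      · exact hjZ (h2 ▸ hu)
    · exact absurd (h1 ▸ hkZ) hxZ
  have hNX0 : ∀ x, x ∈ Nb H Z → x ∉ X0 := by
    rintro x ⟨hxZ, u, hu, hux⟩ hx0
    have hxA := h.vio.sub hx0
    rcases memU.1 (edge_mem x u hux.symm) with h1 | h1 | h1 | h1 | h1 | h1 | h1
    · exact h.QX h1 hx0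
    · exact h.iA (h1 ▸ hxA)
    · exact h.jA (h1 ▸ hxA)
    · exact h.vio.sX (h1 ▸ hx0)
    · exact h.vio.tX (h1 ▸ hx0)
    · exact h.mA (h1 ▸ hxA)
    · exact h.kA (h1 ▸ hxA)
  have hs' : s' ∈ Nb H Z := by rw [hNst]; exact Or.inl rfl
  have ht' : t' ∈ Nb H Z := by rw [hNst]; exact Or.inr rfl
  have hin : ∀ x, x ∈ Nb H Z → x = s' ∨ x = t' := by
    intro x hx; rw [hNst] at hx; exact hx
  have hvio : Vio G A B i j k s' t' X' := by
    refine ⟨hX'A, hne, hst', hNmem s' hs', hNmem t' ht', ?_, ?_, ?_, ?_, ?_⟩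
    · rintro (h1 | h1)
      · exact hs'.1 h1.1
      · exact hNX0 s' hs' h1
    · rintro (h1 | h1)
      · exact ht'.1 h1.1
      · exact hNX0 t' ht' h1
    · intro u hu v huv
      rcases hnb u hu v huv with h1 | h1 | h1
      · exact Or.inl h1
      · exact Or.inr (Or.inl h1)
      · exact Or.inr (Or.inr (hin v h1))
    · intro v hkv
      rcases h.vio.nk v hkv with h1 | h1 | h1 | h1
      · exact Or.inl h1
      · exact Or.inr (Or.inl (Or.inr h1))
      · rcases hst.1 with h2 | h2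
        · exact Or.inr (Or.inl (Or.inl ⟨h1 ▸ h2, h1 ▸ h.sk⟩))
        · exact Or.inr (Or.inr (hin v (h1 ▸ h2)))
      · rcases hst.2.1 with h2 | h2
        · exact Or.inr (Or.inl (Or.inl ⟨h1 ▸ h2, h1 ▸ h.tk⟩))
        · exact Or.inr (Or.inr (hin v (h1 ▸ h2)))
    · by_contra hcon
      have hiN : i ∈ Nb H Z := by
        rw [hNst]
        by_contra h1
        apply hcon
        left
        constructor
        · exact fun h2 => h1 (Or.inl h2)
        · exact fun h2 => h1 (Or.inr h2)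
      have hjN : j ∈ Nb H Z := by
        rw [hNst]
        by_contra h1
        apply hcon
        right
        constructor
        · exact fun h2 => h1 (Or.inl h2)
        · exact fun h2 => h1 (Or.inr h2)
      have hNij : Nb H Z = {i, j} := by
        symm
        refine Set.eq_of_subset_of_ncard_le ?_ ?_ (Set.toFinite _)
        · rintro x (rfl | rfl)
          · exact hiN
          · exact hjN
        · rw [hN2, Set.ncard_pair h.s3.ij]
      set R : Set V := (psiU Q i j s t m k \ (Z ∪ Nb H Z)) \ {m} with hR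
      have hRne : R.Nonempty := by
        rw [← Set.ncard_pos (Set.toFinite _)]
        have h2 : psiU Q i j s t m k \ (Z ∪ Nb H Z) ⊆ insert m R := by
          intro x hx
          by_cases h3 : x = m
          · exact Or.inl h3
          · exact Or.inr ⟨hx, h3⟩
        have h3 := Set.ncard_le_ncard h2 (Set.toFinite _)
        have h4 := Set.ncard_insert_le m R
        omega
      have hRQ : R ⊆ Q := by
        rintro x ⟨⟨hxU, hx⟩, hxm⟩
        rcases memU.1 hxU with h1 | h1 | h1 | h1 | h1 | h1 | h1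
        · exact h1
        · exact absurd (Or.inr (h1 ▸ hiN)) hx
        · exact absurd (Or.inr (h1 ▸ hjN)) hx
        · exact absurd (h1 ▸ hst.1) hx
        · exact absurd (h1 ▸ hst.2.1) hx
        · exact absurd h1 hxm
        · exact absurd (Or.inl (h1 ▸ hkZ)) hx
      refine h.no_small (hRQ.trans h.QA) hRne ?_
      rw [← h.Nb_sub hRQ]
      have h1 : Nb H R ⊆ Nb H Z := by
        rintro x ⟨hxR, u, hu, hux⟩
        by_contra hxN
        have hxZ : x ∉ Z := fun h2 => hu.1.2 (Or.inr ⟨fun h3 => hu.1.2 (Or.inl h3), x, h2, hux.symm⟩)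
        have hxU := edge_mem x u hux.symm
        have hxm : x ≠ m := by
          rintro rfl
          rcases h.nm u hux.symm with h2 | h2
          · exact h.Qi (hRQ hu) h2
          · exact h.Qj (hRQ hu) h2
        exact hxR ⟨⟨hxU, by rintro (h2 | h2); exacts [hxZ h2, hxN h2]⟩, hxm⟩
      exact (Set.ncard_le_ncard h1 (Set.toFinite _)).trans hN
  have heq := hmax s' t' X' hvio (fun x hx => Or.inr hx)
  -- `Z = {k}`
  have hZk : Z ⊆ {k} := by
    intro x hx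
    by_contra hxk
    have h1 : x ∈ X' := Or.inl ⟨hx, hxk⟩
    rw [heq] at h1
    rcases hmem x hx with h2 | ⟨h2 | h2, -⟩ | h2
    · exact h.QX h2 h1
    · exact h.vio.sX (h2 ▸ h1)
    · exact h.vio.tX (h2 ▸ h1)
    · exact hxk h2
  have h1 := Set.ncard_le_ncard hZk (Set.toFinite _)
  rw [Set.ncard_singleton] at h1
  omega

/-- Connectivity of `psiG`. -/
lemma conn [Finite V] (h : PS G U A B X0 Q i j k s t m)
    (hmax : ∀ s' t' X', Vio G A B i j k s' t' X' → X0 ⊆ X' → X' = X0) :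
    ConnP (psiG G Q i j s t m k) (psiU Q i j s t m k) := by
  classical
  intro Y hY hY2 hN
  by_contra hcon
  set H := psiG G Q i j s t m k with hH
  set R := psiU Q i j s t m k \ (Y ∪ Nb H Y) with hR
  have hR2 : 2 ≤ R.ncard := Nat.lt_of_not_le hcon
  by_cases hc : i ∈ Y ∨ j ∈ Y ∨ m ∈ Y
  · -- use the rest
    have hcl : ∀ x y, x ∈ Y → H.Adj x y → y ∈ Y ∨ y ∈ Nb H Y := by
      intro x y hx hxy
      by_cases hy : y ∈ Y
      · exact Or.inl hy
      · exact Or.inr ⟨hy, x, hx, hxy⟩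
    have hall : (i ∈ Y ∨ i ∈ Nb H Y) ∧ (j ∈ Y ∨ j ∈ Nb H Y) ∧ (m ∈ Y ∨ m ∈ Nb H Y) := by
      rcases hc with h1 | h1 | h1
      · exact ⟨Or.inl h1, hcl i j h1 h.ij, hcl i m h1 h.ami.symm⟩
      · exact ⟨hcl j i h1 h.ij.symm, Or.inl h1, hcl j m h1 h.amj.symm⟩
      · exact ⟨hcl m i h1 h.ami, hcl m j h1 h.amj, Or.inl h1⟩
    have hRN : Nb H R ⊆ Nb H Y := by
      rintro x ⟨hxR, u, hu, hux⟩
      by_contra hxN
      have hxY : x ∉ Y := fun h2 => hu.2 (Or.inr ⟨fun h3 => hu.2 (Or.inl h3), x, h2, hux.symm⟩)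
      exact hxR ⟨edge_mem x u hux.symm, by rintro (h2 | h2); exacts [hxY h2, hxN h2]⟩
    refine h.conn_aux hmax (Z := R) (fun x hx => hx.1) hR2
      ((Set.ncard_le_ncard hRN (Set.toFinite _)).trans hN) ?_ (fun h1 => h1.2 hall.1)
      (fun h1 => h1.2 hall.2.1) (fun h1 => h1.2 hall.2.2)
    have h1 : Y ⊆ psiU Q i j s t m k \ (R ∪ Nb H R) := by
      intro y hy
      refine ⟨hY hy, ?_⟩
      rintro (h2 | h2)
      · exact h2.2 (Or.inl hy)
      · exact (hRN h2).1 hy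
    exact hY2.trans (Set.ncard_le_ncard h1 (Set.toFinite _))
  · push Not at hc
    exact h.conn_aux hmax hY hY2 hN hR2 hc.1 hc.2.1 hc.2.2

lemma tri_odd {H : SimpleGraph V} {a b c w : V} (hab : H.Adj a b) (hac : H.Adj a c)
    (hbc : H.Adj b c) (h1 : a ≠ w) (h2 : b ≠ w) (h3 : c ≠ w) (κ : V → ZMod 2)
    (hκ : BalOff H (One V) {w} κ) : False := by
  have e1 : (1 : ZMod 2) = κ a + κ b := hκ a b h1 h2 hab
  have e2 : (1 : ZMod 2) = κ a + κ c := hκ a c h1 h3 hac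
  have e3 : (1 : ZMod 2) = κ b + κ c := hκ b c h2 h3 hbc
  have e4 : ∀ x y z : ZMod 2, 1 = x + y → 1 = x + z → 1 = y + z → False := by decide
  exact e4 _ _ _ e1 e2 e3

/-- The index condition. -/
lemma index [Finite V] (h : PS G U A B X0 Q i j k s t m)
    (hcase : (s ≠ i ∧ s ≠ j ∧ t ≠ i ∧ t ≠ j) ∨
      (s = i ∧ t ∈ A ∧ ¬ BalIn G (Q ∪ {j, t}))) (w : V) (κ : V → ZMod 2) :
    ¬ BalOff (psiG G Q i j s t m k) (One V) {w} κ := by
  intro hκ
  by_cases hw : i ≠ w ∧ j ≠ w ∧ m ≠ w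
  · exact tri_odd h.ij h.ami.symm h.amj.symm hw.1 hw.2.1 hw.2.2 κ hκ
  by_cases hw' : s ≠ w ∧ t ≠ w ∧ k ≠ w
  · exact tri_odd h.ast h.aks.symm h.akt.symm hw'.1 hw'.2.1 hw'.2.2 κ hκ
  have hwc : i = w ∨ j = w ∨ m = w := by tauto
  have hwc' : s = w ∨ t = w ∨ k = w := by tauto
  rcases hcase with ⟨h1, h2, h3, h4⟩ | ⟨h1, h2, h3⟩
  · rcases hwc with rfl | rfl | rfl <;> rcases hwc' with h5 | h5 | h5
    · exact h1 h5
    · exact h3 h5
    · exact h.s3.ik h5.symm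
    · exact h2 h5
    · exact h4 h5
    · exact h.s3.jk h5.symm
    · exact h.ms h5.symm
    · exact h.mt h5.symm
    · exact h.mk' h5.symm
  · have hti : t ≠ i := fun hh => h.iA (hh ▸ h2)
    have htj : t ≠ j := fun hh => h.jA (hh ▸ h2)
    have hw0 : w = i := by
      rcases hwc with h5 | h5 | h5 <;> rcases hwc' with h6 | h6 | h6
      · exact h5.symm
      · exact h5.symm
      · exact h5.symm
      · exact absurd (h1.symm.trans (h6.trans h5.symm)) h.s3.ij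
      · exact absurd (h6.trans h5.symm) htj
      · exact absurd (h5.trans h6.symm) h.s3.jk
      · exact absurd (h5.trans h6.symm) h.ms
      · exact absurd (h5.trans h6.symm) h.mt
      · exact absurd (h5.trans h6.symm) h.mk'
    subst hw0
    apply h3
    refine ⟨κ, ?_⟩
    have hne : ∀ u, u ∈ Q ∪ {j, t} → u ∉ ({w} : Set V) := by
      rintro u (hu | hu | hu) huw
      · exact h.Qi hu huw
      · exact h.s3.ij ((Set.mem_singleton_iff.1 huw).symm.trans hu)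
      · exact hti ((hu.symm.trans (Set.mem_singleton_iff.1 huw)))
    have hin : ∀ u, u ∈ Q ∪ {j, t} → u ∈ Q ∪ {w, j, s, t} := by
      rintro u (hu | hu | hu)
      · exact Or.inl hu
      · exact Or.inr (Or.inr (Or.inl hu))
      · exact Or.inr (Or.inr (Or.inr (Or.inr hu)))
    intro u v hu hv huv heq
    have e1 : (1 : ZMod 2) = κ u + κ v :=
      hκ u v (hne u hu) (hne v hv) (of_G huv (hin u hu) (hin v hv))
    rw [heq, zz] at e1
    exact one_ne_zero e1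

/-- The sparsity condition. -/
lemma sparse [Finite V] (h : PS G U A B X0 Q i j k s t m)
    (hc : ConnP (psiG G Q i j s t m k) (psiU Q i j s t m k))
    (hidx : ∀ w κ, ¬ BalOff (psiG G Q i j s t m k) (One V) {w} κ) :
    ∀ Y ⊆ psiU Q i j s t m k, 2 ≤ Y.ncard → (Nb (psiG G Q i j s t m k) Y).ncard = 3 →
      (psiU Q i j s t m k \ (Y ∪ Nb (psiG G Q i j s t m k) Y)).Nonempty →
      ∀ κ, BalOn (psiG G Q i j s t m k) (One V) Y κ →
        fden (psiG G Q i j s t m k) Y ≤ beta κ (Nb (psiG G Q i j s t m k) Y) := by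
  classical
  have step1 := fp_sparse (H := psiG G Q i j s t m k) (U := psiU Q i j s t m k) edge_mem hc
    (hidx s) (hidx t) h.ast h.aks h.akt h.nk ({i, j, m} : Set V) (by
      intro Y hY hY2 hN hrest hD hs ht hk κ hb
      exfalso
      have hYQ : Y ⊆ Q := by
        intro x hx
        have hxD := Set.disjoint_left.1 hD hx
        rcases memU.1 (hY hx) with h1 | h1 | h1 | h1 | h1 | h1 | h1
        · exact h1
        · exact absurd (Or.inl h1) hxD
        · exact absurd (Or.inr (Or.inl h1)) hxD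
        · exact absurd (h1 ▸ hx) hs
        · exact absurd (h1 ▸ hx) ht
        · exact absurd (Or.inr (Or.inr h1)) hxD
        · exact absurd (h1 ▸ hx) hk
      have hbal : Bal G κ Y := by
        intro u v hu huv heq
        have e1 : (1 : ZMod 2) = κ u + κ v := hb u v hu ((h.adjQ (hYQ hu)).2 huv)
        rw [heq, zz] at e1
        exact one_ne_zero e1
      have h4 := h.cb.P1 Y (hYQ.trans (h.QA.trans h.s3.AU)) hY2 κ hbal
      rw [h.Nb_sub hYQ] at hN
      omega)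
  have step2 := fp_sparse (H := psiG G Q i j s t m k) (U := psiU Q i j s t m k) edge_mem hc
    (hidx i) (hidx j) h.ij h.ami h.amj h.nm (∅ : Set V) (by
      intro Y hY hY2 hN hrest hD hi hj hm κ hb
      refine step1 Y hY hY2 hN hrest ?_ κ hb
      rw [Set.disjoint_left]
      rintro x hx (h1 | h1 | h1)
      · exact hi (h1 ▸ hx)
      · exact hj (h1 ▸ hx)
      · exact hm (h1 ▸ hx))
  intro Y hY hY2 hN hrest κ hb
  exact step2 Y hY hY2 hN hrest (Set.disjoint_empty Y) κ hb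

end PS

end Pool.Agent.Helper51.W2
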