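import Pool.Agent.Helper97.SO.Stp
import Pool.Agent.Helper20.HD.SoftDD2

/-!
# Two suppression steps
-/

set_option autoImplicit false

namespace Pool.Agent.Helper51.W2

open SimpleGraph Pool.Agent.Helper57.TOK Pool.Agent.Helper57.TD Pool.Agent.Helper57.TOP
  Pool.Agent.Helper82.TK Pool.Agent.Helper75.SEP Pool.Agent.Helper97.SO Pool.Agent.Helper20.HD

variable {V : Type*}

/-- The parameters `o`, `e`, `t` can be chosen. -/
lemma exists_se {H : SimpleGraph V} {U T : Set V} {q a b : V} {S : Set V}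
    (edge_mem : ∀ u v, H.Adj u v → u ∈ U) (ab : a ≠ b) (qa : q ≠ a) (qb : q ≠ b) (qS : q ∉ S)
    (aT : a ∉ T) (bT : b ∉ T) (ST : S ⊆ T) (qT : q ∉ T)
    (nbq : ∀ v, H.Adj q v → v = a ∨ v = b ∨ v ∈ S)
    (hand : ∀ s ∈ S, Hand H s q a ∨ Hand H s q b)
    (la : H.Adj q a ∨ Ev H S q a) (lb : H.Adj q b ∨ Ev H S q b)
    (ua : ∀ s ∈ S, ∀ s' ∈ S, Hand H s q a → Hand H s' q a → s = s')
    (ub : ∀ s ∈ S, ∀ s' ∈ S, Hand H s q b → Hand H s' q b → s = s') :
    ∃ o e t, SE H U T q a b S o e t := by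
  classical
  by_cases h1 : ∃ t, t ∈ T ∧ t ∉ S ∧ Hand H t a b
  · obtain ⟨t, t1, t2, t3⟩ := h1
    exact ⟨(H.Adj q a ∧ Ev H S q b) ∨ (Ev H S q a ∧ H.Adj q b), False, t, edge_mem, ab, qa, qb, qS,
      aT, bT, ST, qT, nbq, hand, la, lb, ua, ub, Iff.rfl, fun h => h.elim, fun h => h.elim,
      fun _ => Or.inr ⟨t3, t1, t2⟩⟩
  · exact ⟨(H.Adj q a ∧ Ev H S q b) ∨ (Ev H S q a ∧ H.Adj q b),
      (H.Adj q a ∧ H.Adj q b) ∨ (Ev H S q a ∧ Ev H S q b), q, edge_mem, ab, qa, qb, qS,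
      aT, bT, ST, qT, nbq, hand, la, lb, ua, ub, Iff.rfl, id,
      fun _ t' ht' htS hh => h1 ⟨t', ht', htS, hh⟩, fun h => Or.inl h⟩

section

variable {G : SimpleGraph V} {U : Set V} {h p q a b : V} {S : Set V}

/-- `q` is real. -/
lemma q_real [Finite V] (hM : GMin G U) (hU : h ∈ U) (hh : Hand G h p q) :
    3 ≤ (G.neighborSet q).ncard := gmin_hand_real hM hU hh.symm

lemma real_ne_h (hh : Hand G h p q) {x : V} (hx : 3 ≤ (G.neighborSet x).ncard) : x ≠ h := by
  rintro rfl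
  rw [hh.nb, Set.ncard_pair hh.ne] at hx
  omega

lemma real_notMem_T2 {x : V} (hx : 3 ≤ (G.neighborSet x).ncard) : x ∉ T2 G h := by
  rintro ⟨-, h2⟩
  omega

lemma hand_two {s x y : V} (hs : Hand G s x y) : (G.neighborSet s).ncard = 2 := by
  rw [hs.nb, Set.ncard_pair hs.ne]

/-- Facts on the end `q`. -/
structure QF (G : SimpleGraph V) (U : Set V) (h p q a b : V) (S : Set V) : Prop where
  gmin : GMin G U
  hU : h ∈ U
  hh : Hand G h p q
  s : SEnd G p h q a b S

namespace QF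

lemma q3 [Finite V] (f : QF G U h p q a b S) : 3 ≤ (G.neighborSet q).ncard :=
  q_real f.gmin f.hU f.hh
lemma p3 [Finite V] (f : QF G U h p q a b S) : 3 ≤ (G.neighborSet p).ncard :=
  gmin_hand_real f.gmin f.hU f.hh
lemma ah (f : QF G U h p q a b S) : a ≠ h := real_ne_h f.hh f.s.a3
lemma bh (f : QF G U h p q a b S) : b ≠ h := real_ne_h f.hh f.s.b3
lemma qh (f : QF G U h p q a b S) : q ≠ h := f.hh.hq.ne.symm
lemma ph (f : QF G U h p q a b S) : p ≠ h := f.hh.hp.ne.symm

lemma S2 (f : QF G U h p q a b S) {v : V} (hv : v ∈ S) : (G.neighborSet v).ncard = 2 := by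
  rcases f.s.hand v hv with h1 | h1
  · exact hand_two h1
  · exact hand_two h1

lemma notS (f : QF G U h p q a b S) {v : V} (hv : 3 ≤ (G.neighborSet v).ncard) : v ∉ S := by
  intro h1
  have := f.S2 h1
  omega

lemma Sh (f : QF G U h p q a b S) {v : V} (hv : v ∈ S) : v ≠ h := by
  rintro rfl
  have h1 : G.Adj v p := f.hh.hp
  rcases f.s.hand v hv with h2 | h2
  · rcases h2.adj.1 h1 with h3 | h3
    · exact f.hh.ne h3
    · exact f.s.pa h3
  · rcases h2.adj.1 h1 with h3 | h3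
    · exact f.hh.ne h3
    · exact f.s.pb h3

lemma ST (f : QF G U h p q a b S) : S ⊆ T2 G h := fun _ hv => ⟨f.Sh hv, f.S2 hv⟩

lemma qa (f : QF G U h p q a b S) : q ≠ a := by
  rcases f.s.la with h1 | ⟨s, -, h1⟩
  · exact h1.ne
  · exact h1.ne

lemma qb (f : QF G U h p q a b S) : q ≠ b := by
  rcases f.s.lb with h1 | ⟨s, -, h1⟩
  · exact h1.ne
  · exact h1.ne

lemma SU (f : QF G U h p q a b S) {v : V} (hv : v ∈ S) : v ∈ U := by
  rcases f.s.hand v hv with h1 | h1
  · exact f.gmin.ex.edge_mem v q h1.hp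
  · exact f.gmin.ex.edge_mem v q h1.hp

lemma qU (f : QF G U h p q a b S) : q ∈ U := f.gmin.ex.edge_mem q h f.hh.hq.symm
lemma pU (f : QF G U h p q a b S) : p ∈ U := f.gmin.ex.edge_mem p h f.hh.hp.symm

lemma aU (f : QF G U h p q a b S) : a ∈ U := by
  rcases f.s.la with h1 | ⟨s, -, h1⟩
  · exact f.gmin.ex.edge_mem a q h1.symm
  · exact f.gmin.ex.edge_mem a s h1.hq.symm

lemma bU (f : QF G U h p q a b S) : b ∈ U := by
  rcases f.s.lb with h1 | ⟨s, -, h1⟩
  · exact f.gmin.ex.edge_mem b q h1.symm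
  · exact f.gmin.ex.edge_mem b s h1.hq.symm

lemma npq [Finite V] (f : QF G U h p q a b S) : ¬ G.Adj q p := by
  intro h1
  rcases f.s.nbq p h1 with h2 | h2 | h2 | h2
  · exact f.ph h2
  · exact f.s.pa h2
  · exact f.s.pb h2
  · exact f.notS f.p3 h2

/-- A handle of `S` in a graph which has the same neighbours at `S`. -/
lemma hand_iff (_f : QF G U h p q a b S) {H : SimpleGraph V} {s : V} (_hs : s ∈ S)
    (hH : H.neighborSet s = G.neighborSet s) {x y : V} : Hand H s x y ↔ Hand G s x y := by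
  constructor
  · rintro ⟨h1, h2⟩; exact ⟨h1, hH ▸ h2⟩
  · rintro ⟨h1, h2⟩; exact ⟨h1, hH.trans h2⟩

/-- **The suppression step in a graph with the same neighbours at `q` and `S`.** -/
lemma exists_se [Finite V] (f : QF G U h p q a b S) {H : SimpleGraph V} {U' : Set V}
    (he : ∀ u v, H.Adj u v → u ∈ U') (hq : H.neighborSet q = G.neighborSet q \ {h})
    (hS : ∀ s ∈ S, H.neighborSet s = G.neighborSet s) :
    ∃ o e t, SE H U' (T2 G h) q a b S o e t := by
  have hadj : ∀ v, H.Adj q v ↔ G.Adj q v ∧ v ≠ h := by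
    intro v
    have h1 : v ∈ H.neighborSet q ↔ v ∈ G.neighborSet q \ {h} := by rw [hq]
    exact h1
  have hun : ∀ x, ∀ s ∈ S, ∀ s' ∈ S, Hand H s q x → Hand H s' q x → s = s' := by
    intro x s hs s' hs' h1 h2
    exact gmin_hand_unique f.gmin (f.SU hs) ((f.hand_iff hs (hS s hs)).1 h1) (f.SU hs')
      ((f.hand_iff hs' (hS s' hs')).1 h2)
  refine Pool.Agent.Helper51.W2.exists_se he f.s.ab f.qa f.qb (f.notS f.q3)
    (real_notMem_T2 f.s.a3) (real_notMem_T2 f.s.b3) f.ST (real_notMem_T2 f.q3) ?_ ?_ ?_ ?_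
    (hun a) (hun b)
  · intro v hv
    obtain ⟨h1, h2⟩ := (hadj v).1 hv
    rcases f.s.nbq v h1 with h3 | h3
    · exact absurd h3 h2
    · exact h3
  · intro s hs
    rcases f.s.hand s hs with h1 | h1
    · exact Or.inl ((f.hand_iff hs (hS s hs)).2 h1)
    · exact Or.inr ((f.hand_iff hs (hS s hs)).2 h1)
  · rcases f.s.la with h1 | ⟨s, hs, h1⟩
    · exact Or.inl ((hadj a).2 ⟨h1, f.ah⟩)
    · exact Or.inr ⟨s, hs, (f.hand_iff hs (hS s hs)).2 h1⟩
  · rcases f.s.lb with h1 | ⟨s, hs, h1⟩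
    · exact Or.inl ((hadj b).2 ⟨h1, f.bh⟩)
    · exact Or.inr ⟨s, hs, (f.hand_iff hs (hS s hs)).2 h1⟩

end QF

lemma delV_nbS [Finite V] (f : QF G U h p q a b S) {s : V} (hs : s ∈ S) :
    (delV G h).neighborSet s = G.neighborSet s := by
  refine delV_nb_of f.hh (f.Sh hs) ?_ ?_
  · rintro rfl; exact f.notS f.p3 hs
  · rintro rfl; exact f.notS f.q3 hs

lemma delV_edge (he : ∀ u v, G.Adj u v → u ∈ U) (u v : V) (huv : (delV G h).Adj u v) :
    u ∈ U \ {h} := ⟨he u v huv.1, huv.2.1⟩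

/-- The step at one end in `G - h`. -/
lemma exists_first [Finite V] (f : QF G U h p q a b S) :
    ∃ o e t, SE (delV G h) (U \ {h}) (T2 G h) q a b S o e t :=
  f.exists_se (delV_edge f.gmin.ex.edge_mem) (delV_nb q f.qh) (fun _ hs => delV_nbS f hs)

/-- Two soft ends. -/
structure PQ (G : SimpleGraph V) (U : Set V) (h p q a b a' b' : V) (S S' : Set V) : Prop where
  f : QF G U h p q a b S
  g : QF G U h q p a' b' S'

namespace PQ

variable {a' b' : V} {S' : Set V}

lemma symm (z : PQ G U h p q a b a' b' S S') : PQ G U h q p a' b' a b S' S := ⟨z.g, z.f⟩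

lemma SSn (z : PQ G U h p q a b a' b' S S') {v : V} (hv : v ∈ S) : v ∉ S' := by
  intro hv'
  have h1 : G.Adj v q := by
    rcases z.f.s.hand v hv with h1 | h1
    · exact h1.hp
    · exact h1.hp
  rcases z.g.s.hand v hv' with h2 | h2
  · rcases h2.adj.1 h1 with h3 | h3
    · exact z.f.hh.ne h3.symm
    · exact z.g.s.pa h3
  · rcases h2.adj.1 h1 with h3 | h3
    · exact z.f.hh.ne h3.symm
    · exact z.g.s.pb h3

lemma KK [Finite V] (z : PQ G U h p q a b a' b' S S') :
    Disjoint (insert q S) (insert p S') := by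
  rw [Set.disjoint_left]
  rintro v (rfl | hv) (h1 | h1)
  · exact z.f.hh.ne h1.symm
  · exact z.g.notS z.f.q3 h1
  · rw [h1] at hv; exact z.f.notS z.f.p3 hv
  · exact z.SSn hv h1

lemma AK [Finite V] (z : PQ G U h p q a b a' b' S S') :
    Disjoint ({a, b} : Set V) (insert p S') := by
  rw [Set.disjoint_left]
  rintro v (rfl | hv) (h1 | h1)
  · exact z.f.s.pa h1.symm
  · exact z.g.notS z.f.s.a3 h1
  · rw [Set.mem_singleton_iff] at hv; rw [hv] at h1; exact z.f.s.pb h1.symm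
  · rw [Set.mem_singleton_iff] at hv; rw [hv] at h1; exact z.g.notS z.f.s.b3 h1

/-- The two pairs are different. -/
lemma AA [Finite V] (z : PQ G U h p q a b a' b' S S') : ({a, b} : Set V) ≠ {a', b'} := by
  classical
  intro hAA
  have hmem : ∀ x, x = a' ∨ x = b' → x = a ∨ x = b := by
    intro x hx
    have h1 : x ∈ ({a', b'} : Set V) := hx
    rw [← hAA] at h1
    exact h1
  set K : Set V := insert h (insert q S ∪ insert p S') with hK
  have hKU : K ⊆ U := by
    rintro v (rfl | (rfl | hv) | (rfl | hv))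
    · exact z.f.hU
    · exact z.f.qU
    · exact z.f.SU hv
    · exact z.f.pU
    · exact z.g.SU hv
  have hKN : ∀ u ∈ K, ∀ v, G.Adj u v → v ∈ K ∨ v = a ∨ v = b := by
    have hS : ∀ u ∈ S, ∀ v, G.Adj u v → v = q ∨ v = a ∨ v = b := by
      intro u hu v huv
      rcases z.f.s.hand u hu with h1 | h1
      · rcases h1.adj.1 huv with h2 | h2 <;> tauto
      · rcases h1.adj.1 huv with h2 | h2 <;> tauto
    have hS' : ∀ u ∈ S', ∀ v, G.Adj u v → v = p ∨ v = a' ∨ v = b' := by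
      intro u hu v huv
      rcases z.g.s.hand u hu with h1 | h1
      · rcases h1.adj.1 huv with h2 | h2 <;> tauto
      · rcases h1.adj.1 huv with h2 | h2 <;> tauto
    rintro u (rfl | (rfl | hu) | (rfl | hu)) v huv
    · rcases z.f.hh.adj.1 huv with h1 | h1
      · exact Or.inl (Or.inr (Or.inr (Or.inl h1)))
      · exact Or.inl (Or.inr (Or.inl (Or.inl h1)))
    · rcases z.f.s.nbq v huv with h1 | h1 | h1 | h1
      · exact Or.inl (Or.inl h1)
      · exact Or.inr (Or.inl h1)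
      · exact Or.inr (Or.inr h1)
      · exact Or.inl (Or.inr (Or.inl (Or.inr h1)))
    · rcases hS u hu v huv with h1 | h1
      · exact Or.inl (Or.inr (Or.inl (Or.inl h1)))
      · exact Or.inr h1
    · rcases z.g.s.nbq v huv with h1 | h1 | h1 | h1
      · exact Or.inl (Or.inl h1)
      · exact Or.inr (hmem v (Or.inl h1))
      · exact Or.inr (hmem v (Or.inr h1))
      · exact Or.inl (Or.inr (Or.inr (Or.inr h1)))
    · rcases hS' u hu v huv with h1 | h1
      · exact Or.inl (Or.inr (Or.inr (Or.inl h1)))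
      · exact Or.inr (hmem v h1)
  have hNb : ∀ v ∈ Nb G K, v = a ∨ v = b := by
    rintro v ⟨hv, u, hu, huv⟩
    exact (hKN u hu v huv).resolve_left hv
  have hK2 : 2 ≤ K.ncard := by
    have h1 : ({q, p} : Set V) ⊆ K := by
      rintro v (rfl | hv)
      · exact Or.inr (Or.inl (Or.inl rfl))
      · rw [Set.mem_singleton_iff] at hv; rw [hv]; exact Or.inr (Or.inr (Or.inl rfl))
    have h2 := Set.ncard_le_ncard h1 (Set.toFinite _)
    rwa [Set.ncard_pair z.f.hh.ne.symm] at h2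
  have hr := z.f.gmin.ex.conn K hKU hK2 (ncard_le_two_of hNb)
  -- two-colouring of `G - a - b`
  refine gmin_ind3 z.f.gmin a b (fun v => if v = p ∨ v = q then 0 else 1) ?_
  have key : ∀ u v, u ≠ a → u ≠ b → v ≠ a → v ≠ b → G.Adj u v → ¬ (u = p ∨ u = q) →
      v = p ∨ v = q := by
    intro u v hu1 hu2 hv1 hv2 huv hu
    have hS0 : ∀ {r x y : V} {s : V}, (Hand G s r x ∨ Hand G s r y) → ∀ w, G.Adj s w →
        w ≠ x → w ≠ y → w = r := by
      intro r x y s hs w hw h1 h2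
      rcases hs with h3 | h3
      · exact (h3.adj.1 hw).resolve_right h1
      · exact (h3.adj.1 hw).resolve_right h2
    have hv1' : v ≠ a' ∧ v ≠ b' := by
      constructor
      · intro h1; rcases hmem v (Or.inl h1) with h2 | h2
        · exact hv1 h2
        · exact hv2 h2
      · intro h1; rcases hmem v (Or.inr h1) with h2 | h2
        · exact hv1 h2
        · exact hv2 h2
    by_cases huK : u ∈ K
    · rcases huK with h1 | (h1 | h1) | (h1 | h1)
      · rw [h1] at huv; exact z.f.hh.adj.1 huv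
      · exact absurd (Or.inr h1) hu
      · exact Or.inr (hS0 (z.f.s.hand u h1) v huv hv1 hv2)
      · exact absurd (Or.inl h1) hu
      · exact Or.inl (hS0 (z.g.s.hand u h1) v huv hv1'.1 hv1'.2)
    · exfalso
      have hvK : v ∉ K := by
        intro hvK
        rcases hKN v hvK u huv.symm with h1 | h1 | h1
        · exact huK h1
        · exact hu1 h1
        · exact hu2 h1
      have toR : ∀ w, w ∈ U → w ∉ K → w ≠ a → w ≠ b → w ∈ U \ (K ∪ Nb G K) := by
        intro w h1 h2 h3 h4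
        refine ⟨h1, ?_⟩
        rintro (h5 | h5)
        · exact h2 h5
        · rcases hNb w h5 with h6 | h6
          · exact h3 h6
          · exact h4 h6
      exact huv.ne ((Set.ncard_le_one (Set.toFinite _)).1 hr u
        (toR u (z.f.gmin.ex.edge_mem u v huv) huK hu1 hu2) v
        (toR v (z.f.gmin.ex.edge_mem v u huv.symm) hvK hv1 hv2))
  have hpq : ¬ G.Adj p q := fun h1 => z.f.npq h1.symm
  intro u v hu1 hu2 hv1 hv2 huv
  show (if u = p ∨ u = q then (0 : ZMod 2) else 1) ≠ (if v = p ∨ v = q then 0 else 1)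
  by_cases h1 : u = p ∨ u = q
  · have h2 : ¬ (v = p ∨ v = q) := by
      intro h2
      rcases h1 with rfl | rfl <;> rcases h2 with rfl | rfl
      · exact huv.ne rfl
      · exact hpq huv
      · exact hpq huv.symm
      · exact huv.ne rfl
    rw [if_pos h1, if_neg h2]; decide
  · have h2 := key u v hu1 hu2 hv1 hv2 huv h1
    rw [if_neg h1, if_pos h2]; decide

/-- The bad vertices do not agree. -/
lemma bad [Finite V] (z : PQ G U h p q a b a' b' S S') {H1 : SimpleGraph V}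
    (hnb : ∀ v, v ∉ insert q S → v ∉ ({a, b} : Set V) →
      H1.neighborSet v = (delV G h).neighborSet v) (w : V)
    (hq : Bad1 (delV G h) S (T2 G h) q a b w) (hp : Bad1 H1 S' (T2 G h) p a' b' w)
    (κ : V → ZMod 2) : ¬ POff G {w, p, q} κ := by
  intro hκ
  have hAA := z.AA
  have hp1 : ∀ v, H1.Adj p v → G.Adj p v := by
    intro v hv
    have hpK : p ∉ insert q S := by
      rintro (h1 | h1)
      · exact z.f.hh.ne h1
      · exact z.f.notS z.f.p3 h1
    have hpA : p ∉ ({a, b} : Set V) := by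
      rintro (h1 | h1)
      · exact z.f.s.pa h1
      · exact z.f.s.pb h1
    have h1 : v ∈ H1.neighborSet p := hv
    rw [hnb p hpK hpA] at h1
    exact h1.1
  have hbal : ∀ c, c = w → ∀ u v, u ≠ c → u ≠ p → u ≠ q → v ≠ c → v ≠ p → v ≠ q → G.Adj u v →
      κ u ≠ κ v := by
    rintro c rfl u v h1 h2 h3 h4 h5 h6 huv
    refine hκ u v ?_ ?_ huv
    · rintro (h7 | h7 | h7)
      · exact h1 h7
      · exact h2 h7
      · exact h3 h7
    · rintro (h7 | h7 | h7)
      · exact h4 h7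
      · exact h5 h7
      · exact h6 h7
  -- neighbours of `p` and `q`
  have hnp : ∀ v, G.Adj p v → v = h ∨ v = a' ∨ Hand G v p a' ∨ v = b' ∨ Hand G v p b' := by
    intro v hv
    rcases z.g.s.nbq v hv with h1 | h1 | h1 | h1
    · tauto
    · tauto
    · tauto
    · rcases z.g.s.hand v h1 with h2 | h2 <;> tauto
  have hnq : ∀ v, G.Adj q v → v = h ∨ v = a ∨ Hand G v q a ∨ v = b ∨ Hand G v q b := by
    intro v hv
    rcases z.f.s.nbq v hv with h1 | h1 | h1 | h1
    · tauto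
    · tauto
    · tauto
    · rcases z.f.s.hand v h1 with h2 | h2 <;> tauto
  have evq : ∀ x, Ev (delV G h) S q x → ∃ t, Hand G t q x := by
    rintro x ⟨s, hs, h1⟩
    exact ⟨s, (z.f.hand_iff hs (delV_nbS z.f hs)).1 h1⟩
  have evp : ∀ x, Ev H1 S' p x → ∃ t, Hand G t p x := by
    rintro x ⟨s, hs, h1⟩
    have hsK : s ∉ insert q S := by
      rintro (h2 | h2)
      · exact z.g.notS z.f.q3 (h2 ▸ hs)
      · exact z.SSn h2 hs
    have hsA : s ∉ ({a, b} : Set V) := by
      rintro (h2 | h2)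
      · exact z.g.notS z.f.s.a3 (h2 ▸ hs)
      · rw [Set.mem_singleton_iff] at h2; exact z.g.notS z.f.s.b3 (h2 ▸ hs)
    refine ⟨s, (z.g.hand_iff hs ?_).1 h1⟩
    rw [hnb s hsK hsA]
    exact delV_nbS z.g hs
  -- the main case
  have main : ∀ c x y, c = w → (∀ v, G.Adj p v → v = h ∨ v = c ∨ Hand G v p c ∨ v = y ∨
      Hand G v p y) → (∀ v, G.Adj q v → v = h ∨ v = c ∨ Hand G v q c ∨ v = x ∨ Hand G v q x) →
      G.Adj p y → (∃ t, Hand G t p y) → G.Adj q x → (∃ t, Hand G t q x) → c ≠ p → c ≠ q →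
      x ≠ p → y ≠ q → c ≠ x → c ≠ y → x ≠ y → 3 ≤ (G.neighborSet c).ncard → False := by
    intro c x y hc h1 h2 h3 h4 h5 h6 h7 h8 h9 h10 h11 h12 h13 h14
    exact DD.false (⟨z.f.gmin, z.f.hU, z.f.hh, fun h => z.f.npq h.symm, h1, h2, h3, h4, h5, h6,
      h7, h8, h9, h10, h11, h12, h13, h14, hbal c hc⟩ : DD G U h p q c x y κ)
  have wT : ∀ x, 3 ≤ (G.neighborSet x).ncard → w = x → w ∉ T2 G h := by
    rintro x hx rfl
    exact real_notMem_T2 hx
  have hswap : ∀ {x y c r : V}, (∀ v, G.Adj r v → v = h ∨ v = x ∨ Hand G v r x ∨ v = y ∨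
      Hand G v r y) → c = y → ∀ v, G.Adj r v → v = h ∨ v = c ∨ Hand G v r c ∨ v = x ∨
      Hand G v r x := by
    rintro x y c r h1 rfl v hv
    rcases h1 v hv with h2 | h2 | h2 | h2 | h2 <;> tauto
  rcases hq with ⟨q1, q2, q3⟩ | ⟨q1, q2, q3⟩ | ⟨q1, q2⟩
  · rcases hp with ⟨p1, p2, p3⟩ | ⟨p1, p2, p3⟩ | ⟨p1, p2⟩
    · -- `w = a = a'`
      have e : a' = a := p1.symm.trans q1
      rw [e] at hnp hAA
      refine main a b b' q1.symm hnp hnq (hp1 _ p2) (evp _ p3) q2.1 (evq _ q3) z.f.s.pa.symm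
        z.f.qa.symm z.f.s.pb.symm z.g.s.pb.symm z.f.s.ab ?_ ?_ z.f.s.a3
      · have := z.g.s.ab; rw [e] at this; exact this
      · rintro rfl; exact hAA rfl
    · -- `w = a = b'`
      have e : b' = a := p1.symm.trans q1
      rw [e] at hAA
      refine main a b a' q1.symm (hswap hnp e.symm) hnq (hp1 _ p2) (evp _ p3) q2.1 (evq _ q3)
        z.f.s.pa.symm z.f.qa.symm z.f.s.pb.symm z.g.s.pa.symm z.f.s.ab ?_ ?_ z.f.s.a3
      · have := z.g.s.ab; rw [e] at this; exact this.symm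
      · rintro rfl; exact hAA (Set.pair_comm _ _)
    · exact wT a z.f.s.a3 q1 p1
  · rcases hp with ⟨p1, p2, p3⟩ | ⟨p1, p2, p3⟩ | ⟨p1, p2⟩
    · have e : a' = b := p1.symm.trans q1
      rw [e] at hnp hAA
      refine main b a b' q1.symm hnp (hswap hnq rfl) (hp1 _ p2) (evp _ p3) q2.1 (evq _ q3)
        z.f.s.pb.symm z.f.qb.symm z.f.s.pa.symm z.g.s.pb.symm z.f.s.ab.symm ?_ ?_ z.f.s.b3
      · have := z.g.s.ab; rw [e] at this; exact this
      · rintro rfl; exact hAA (Set.pair_comm _ _)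
    · have e : b' = b := p1.symm.trans q1
      rw [e] at hAA
      refine main b a a' q1.symm (hswap hnp e.symm) (hswap hnq rfl) (hp1 _ p2) (evp _ p3) q2.1
        (evq _ q3) z.f.s.pb.symm z.f.qb.symm z.f.s.pa.symm z.g.s.pa.symm z.f.s.ab.symm ?_ ?_
        z.f.s.b3
      · have := z.g.s.ab; rw [e] at this; exact this.symm
      · rintro rfl; exact hAA rfl
    · exact wT b z.f.s.b3 q1 p1
  · rcases hp with ⟨p1, -, -⟩ | ⟨p1, -, -⟩ | ⟨-, p2⟩
    · exact wT a' z.g.s.a3 p1 q1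
    · exact wT b' z.g.s.b3 p1 q1
    · have hwK : w ∉ insert q S := by
        rintro (h1 | h1)
        · exact real_notMem_T2 z.f.q3 (h1 ▸ q1)
        · have h2 : (delV G h).Adj w q := by
            rcases z.f.s.hand w h1 with h3 | h3
            · exact ⟨h3.hp, z.f.Sh h1, z.f.qh⟩
            · exact ⟨h3.hp, z.f.Sh h1, z.f.qh⟩
          rcases q2.adj.1 h2 with h3 | h3
          · exact z.f.qa h3
          · exact z.f.qb h3
      have hwA : w ∉ ({a, b} : Set V) := by
        rintro (h1 | h1)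
        · exact real_notMem_T2 z.f.s.a3 (h1 ▸ q1)
        · rw [Set.mem_singleton_iff] at h1; exact real_notMem_T2 z.f.s.b3 (h1 ▸ q1)
      have h1 := hnb w hwK hwA
      rw [q2.nb, p2.nb] at h1
      exact hAA h1.symm

end PQ

end

end Pool.Agent.Helper51.W2
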